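import Pool.Agent.TH493.RBM.Cover

/-!
Colourings of the cube in which every ball of radius one meets every colour.  They give
radius-one covering codes whose density tends to one in all dimensions.
-/

namespace Pool.Agent.TH493.Boltz

open Finset

/-- A colouring of the cube by a group such that from every vertex every non-zero change of
colour is realised by flipping one bit. -/
def GCol (ι G : Type) [DecidableEq ι] [AddCommGroup G] : Prop :=
  ∃ c : (ι → Bool) → G, ∀ v, ∀ γ : G, γ ≠ 0 → ∃ i, c (flip v i) = c v + γ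

/-- A colouring as above with an additional function `π` into a field `K` whose change under
the chosen flip depends only on the change of colour. -/
def GStr (K : Type) [Field K] (ι G : Type) [DecidableEq ι] [AddCommGroup G] : Prop :=
  ∃ (c : (ι → Bool) → G) (π : (ι → Bool) → K) (lam : G → K), (∀ γ, γ ≠ 0 → lam γ ≠ 0) ∧
    ∀ v, ∀ γ : G, γ ≠ 0 → ∃ i, c (flip v i) = c v + γ ∧ π (flip v i) = π v + lam γ

/-- There is a colouring in dimension `N` with `P` colours. -/
def HasCol (N P : ℕ) : Prop :=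
  ∃ (ι G : Type) (_ : Fintype ι) (_ : DecidableEq ι) (_ : Fintype G) (_ : AddCommGroup G),
    Fintype.card ι = N ∧ Fintype.card G = P ∧ GCol ι G

theorem flip_comp {ι ι' : Type*} [DecidableEq ι] [DecidableEq ι'] {f : ι → ι'}
    (hf : Function.Injective f) (v : ι' → Bool) (i : ι) :
    (fun k => flip v (f i) (f k)) = flip (fun k => v (f k)) i := by
  funext k
  by_cases hk : k = i
  · subst hk; rw [flip_self, flip_self]
  · rw [flip_ne _ hk, flip_ne _ (fun h => hk (hf h))]

theorem flip_comp_ne {ι ι' : Type*} [DecidableEq ι'] {f : ι → ι'} {j : ι'}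
    (hj : ∀ k, f k ≠ j) (v : ι' → Bool) :
    (fun k => flip v j (f k)) = fun k => v (f k) := by
  funext k
  rw [flip_ne _ (hj k)]

/-- Parity of a vector. -/
def par {ι : Type*} [Fintype ι] (v : ι → Bool) : ZMod 2 := ∑ i, (if v i then 1 else 0)

theorem par_flip {ι : Type*} [Fintype ι] [DecidableEq ι] (v : ι → Bool) (i : ι) :
    par (flip v i) = par v + 1 := by
  unfold par
  rw [← Finset.add_sum_erase _ _ (Finset.mem_univ i), ← Finset.add_sum_erase (a := i) _
    (fun k => if v k = true then (1 : ZMod 2) else 0) (Finset.mem_univ i)]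
  have h1 : ∑ k ∈ univ.erase i, (if flip v i k = true then (1 : ZMod 2) else 0) =
      ∑ k ∈ univ.erase i, (if v k = true then (1 : ZMod 2) else 0) := by
    refine Finset.sum_congr rfl fun k hk => ?_
    rw [flip_ne _ (Finset.ne_of_mem_erase hk)]
  rw [h1, flip_self]
  cases hv : v i
  · simp only [Bool.not_false, if_true, Bool.false_eq_true, if_false, zero_add]
    ring
  · simp only [Bool.not_true, if_true, Bool.false_eq_true, if_false, zero_add]
    have h2 : (1 : ZMod 2) + 1 = 0 := by decide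
    rw [add_right_comm, h2, zero_add]

/-- Doubling. -/
theorem gcol_double {ι G : Type} [Fintype ι] [DecidableEq ι] [AddCommGroup G]
    (h : GCol ι G) : GCol ((ι ⊕ ι) ⊕ Unit) (G × ZMod 2) := by
  obtain ⟨c, hc⟩ := h
  let U : ((ι ⊕ ι) ⊕ Unit → Bool) → (ι → Bool) := fun v i => v (Sum.inl (Sum.inl i))
  let W : ((ι ⊕ ι) ⊕ Unit → Bool) → (ι → Bool) := fun v i => v (Sum.inl (Sum.inr i))
  let Y : ((ι ⊕ ι) ⊕ Unit → Bool) → (Unit → Bool) := fun v i => v (Sum.inr i)
  have hinjU : Function.Injective (fun i : ι => (Sum.inl (Sum.inl i) : (ι ⊕ ι) ⊕ Unit)) := by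
    intro a b h; simpa using h
  have hinjW : Function.Injective (fun i : ι => (Sum.inl (Sum.inr i) : (ι ⊕ ι) ⊕ Unit)) := by
    intro a b h; simpa using h
  have hinjY : Function.Injective (fun i : Unit => (Sum.inr i : (ι ⊕ ι) ⊕ Unit)) :=
    Sum.inr_injective
  have UU : ∀ v i, U (flip v (Sum.inl (Sum.inl i))) = flip (U v) i := fun v i =>
    flip_comp hinjU v i
  have UW : ∀ v i, U (flip v (Sum.inl (Sum.inr i))) = U v := fun v i =>
    flip_comp_ne (fun k => by simp) v
  have UY : ∀ v i, U (flip v (Sum.inr i)) = U v := fun v i =>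
    flip_comp_ne (fun k => by simp) v
  have WU : ∀ v i, W (flip v (Sum.inl (Sum.inl i))) = W v := fun v i =>
    flip_comp_ne (fun k => by simp) v
  have WW : ∀ v i, W (flip v (Sum.inl (Sum.inr i))) = flip (W v) i := fun v i =>
    flip_comp hinjW v i
  have WY : ∀ v i, W (flip v (Sum.inr i)) = W v := fun v i =>
    flip_comp_ne (fun k => by simp) v
  have YU : ∀ v i, Y (flip v (Sum.inl (Sum.inl i))) = Y v := fun v i =>
    flip_comp_ne (fun k => by simp) v
  have YW : ∀ v i, Y (flip v (Sum.inl (Sum.inr i))) = Y v := fun v i =>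
    flip_comp_ne (fun k => by simp) v
  have YY : ∀ v i, Y (flip v (Sum.inr i)) = flip (Y v) i := fun v i =>
    flip_comp hinjY v i
  refine ⟨fun v => (c (U v) + c (W v), par (W v) + par (Y v)), ?_⟩
  rintro v ⟨γ, τ⟩ hne
  have hall : ∀ t : ZMod 2, t = 0 ∨ t = 1 := by decide
  have hτ : τ = 0 ∨ τ = 1 := hall τ
  rcases hτ with rfl | rfl
  · have hγ : γ ≠ 0 := fun h => hne (by rw [h]; rfl)
    obtain ⟨i, hi⟩ := hc (U v) γ hγ
    refine ⟨Sum.inl (Sum.inl i), ?_⟩
    simp only [UU, WU, YU, hi, Prod.mk_add_mk, add_zero, Prod.mk.injEq, and_true]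
    abel
  · by_cases hγ : γ = 0
    · subst hγ
      refine ⟨Sum.inr (), ?_⟩
      simp only [UY, WY, YY, par_flip, Prod.mk_add_mk, add_zero, Prod.mk.injEq, true_and]
      abel
    · obtain ⟨i, hi⟩ := hc (W v) γ hγ
      refine ⟨Sum.inl (Sum.inr i), ?_⟩
      simp only [UW, WW, YW, hi, par_flip, Prod.mk_add_mk, Prod.mk.injEq]
      constructor <;> abel

theorem hasCol_zero : HasCol 0 1 := by
  refine ⟨Empty, PUnit, inferInstance, inferInstance, inferInstance, inferInstance, rfl, rfl,
    fun _ => 0, fun v γ h => absurd (Subsingleton.elim _ _) h⟩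

theorem HasCol.double {N P : ℕ} (h : HasCol N P) : HasCol (2 * N + 1) (2 * P) := by
  obtain ⟨ι, G, i1, i2, i3, i4, h1, h2, h3⟩ := h
  refine ⟨(ι ⊕ ι) ⊕ Unit, G × ZMod 2, inferInstance, inferInstance, inferInstance,
    inferInstance, ?_, ?_, gcol_double h3⟩
  · simp [Fintype.card_sum, h1]; ring
  · rw [Fintype.card_prod, h2, ZMod.card]; ring

theorem HasCol.double_iter {N P : ℕ} (h : HasCol N P) (l : ℕ) :
    HasCol (2 ^ l * (N + 1) - 1) (2 ^ l * P) := by
  induction l with
  | zero => simpa using h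
  | succ l ih =>
    have := ih.double
    have h1 : 2 * (2 ^ l * (N + 1) - 1) + 1 = 2 ^ (l + 1) * (N + 1) - 1 := by
      have : 1 ≤ 2 ^ l * (N + 1) := Nat.one_le_iff_ne_zero.mpr (by positivity)
      rw [pow_succ]
      have h2 : 2 ^ l * 2 * (N + 1) = 2 * (2 ^ l * (N + 1)) := by ring
      omega
    have h2 : 2 * (2 ^ l * P) = 2 ^ (l + 1) * P := by ring
    rwa [h1, h2] at this

theorem hasCol_two_pow (k : ℕ) : HasCol (2 ^ k - 1) (2 ^ k) := by
  have := hasCol_zero.double_iter k
  simpa using this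

/-- Merging colours: a colouring by a group with at least `|K|` elements gives one by `K`. -/
theorem GCol.merge {ι G K : Type} [DecidableEq ι] [AddCommGroup G] [AddCommGroup K]
    (h : GCol ι G) {φ : G → K} (hφ : Function.Surjective φ) : GCol ι K := by
  obtain ⟨c, hc⟩ := h
  refine ⟨fun v => φ (c v), fun v τ hτ => ?_⟩
  obtain ⟨g, hg⟩ := hφ (φ (c v) + τ)
  have hne : g - c v ≠ 0 := by
    intro h0
    have : g = c v := sub_eq_zero.mp h0
    rw [this] at hg
    exact hτ (by simpa using hg.symm)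
  obtain ⟨i, hi⟩ := hc v (g - c v) hne
  refine ⟨i, ?_⟩
  show φ (c (flip v i)) = _
  rw [hi, add_sub_cancel, hg]

theorem gstr_base (K : Type) [Field K] : GStr K Empty PUnit :=
  ⟨fun _ => 0, fun _ => 0, fun _ => 0, fun _ h => absurd (Subsingleton.elim _ _) h,
    fun _ _ h => absurd (Subsingleton.elim _ _) h⟩

/-- The outer recursion. -/
theorem gstr_step {K : Type} [Field K] [Fintype K] [DecidableEq K] {ι G ι₁ : Type} [Fintype ι]
    [DecidableEq ι] [DecidableEq ι₁] [AddCommGroup G] (h : GStr K ι G) (h₁ : GCol ι₁ K) :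
    GStr K ((K × ι) ⊕ ι₁) (G × K) := by
  classical
  obtain ⟨c, π, lam, hlam, hc⟩ := h
  obtain ⟨c₁, hc₁⟩ := h₁
  let X : (((K × ι) ⊕ ι₁) → Bool) → K → (ι → Bool) := fun v s i => v (Sum.inl (s, i))
  let Y : (((K × ι) ⊕ ι₁) → Bool) → (ι₁ → Bool) := fun v i => v (Sum.inr i)
  have hinjX : ∀ s, Function.Injective (fun i : ι => (Sum.inl (s, i) : (K × ι) ⊕ ι₁)) := by
    intro s a b h; simpa using h
  have XX : ∀ v s i, X (flip v (Sum.inl (s, i))) s = flip (X v s) i := fun v s i =>
    flip_comp (hinjX s) v i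
  have XX' : ∀ v s i s', s' ≠ s → X (flip v (Sum.inl (s, i))) s' = X v s' := fun v s i s' h =>
    flip_comp_ne (fun k => by simp [h]) v
  have XY : ∀ v i s, X (flip v (Sum.inr i)) s = X v s := fun v i s =>
    flip_comp_ne (fun k => by simp) v
  have YX : ∀ v s i, Y (flip v (Sum.inl (s, i))) = Y v := fun v s i =>
    flip_comp_ne (fun k => by simp) v
  have YY : ∀ v i, Y (flip v (Sum.inr i)) = flip (Y v) i := fun v i =>
    flip_comp Sum.inr_injective v i
  -- general effect of changing one block on a sum over blocks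
  have hsum : ∀ {A : Type} [AddCommGroup A] (F : K → (ι → Bool) → A) (v : ((K × ι) ⊕ ι₁) → Bool)
      (s : K) (i : ι) (d : A), F s (flip (X v s) i) = F s (X v s) + d →
      ∑ s', F s' (X (flip v (Sum.inl (s, i))) s') = ∑ s', F s' (X v s') + d := by
    intro A _ F v s i d hd
    rw [← Finset.add_sum_erase _ _ (Finset.mem_univ s), ← Finset.add_sum_erase (a := s) _
      (fun s' => F s' (X v s')) (Finset.mem_univ s), XX, hd]
    have : ∑ s' ∈ univ.erase s, F s' (X (flip v (Sum.inl (s, i))) s') =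
        ∑ s' ∈ univ.erase s, F s' (X v s') := by
      refine Finset.sum_congr rfl fun s' hs' => ?_
      rw [XX' v s i s' (Finset.ne_of_mem_erase hs')]
    rw [this]
    abel
  refine ⟨fun v => (∑ s, c (X v s), ∑ s, s * π (X v s) + c₁ (Y v)),
    fun v => ∑ s, π (X v s) + c₁ (Y v),
    fun γ => if γ.1 = 0 then γ.2 else lam γ.1, ?_, ?_⟩
  · rintro ⟨γ, τ⟩ hne
    by_cases hγ : γ = 0
    · subst hγ
      simp only [if_true]
      intro h0; exact hne (by rw [h0]; rfl)
    · simp only [if_neg hγ]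
      exact hlam γ hγ
  · rintro v ⟨γ, τ⟩ hne
    by_cases hγ : γ = 0
    · subst hγ
      have hτ : τ ≠ 0 := fun h0 => hne (by rw [h0]; rfl)
      obtain ⟨i, hi⟩ := hc₁ (Y v) τ hτ
      refine ⟨Sum.inr i, ?_, ?_⟩
      · simp only [XY, YY, hi, Prod.mk_add_mk, add_zero, Prod.mk.injEq, true_and]
        abel
      · simp only [XY, YY, hi, if_true]
        abel
    · have hl := hlam γ hγ
      set s : K := τ / lam γ with hs
      obtain ⟨i, hi1, hi2⟩ := hc (X v s) γ hγ
      refine ⟨Sum.inl (s, i), ?_, ?_⟩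
      · beta_reduce
        rw [hsum (fun _ x => c x) v s i γ hi1,
          hsum (fun s x => s * π x) v s i (s * lam γ) (by rw [hi2]; ring), YX]
        have : s * lam γ = τ := by rw [hs]; field_simp
        rw [this]
        simp only [Prod.mk_add_mk, Prod.mk.injEq, true_and]
        abel
      · beta_reduce
        rw [hsum (fun _ x => π x) v s i (lam γ) hi2, YX]
        simp only [if_neg hγ]
        abel

/-- Length of the outer construction. -/
def outerLen (q N : ℕ) : ℕ → ℕ
  | 0 => 0
  | m + 1 => q * outerLen q N m + N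

/-- The outer perfect code over the field `K` with inner colouring. -/
theorem hasCol_outer {N P q : ℕ} (h : HasCol N P) (K : Type) [Field K] [Fintype K]
    (hq : Fintype.card K = q) (hqP : q ≤ P) (m : ℕ) : HasCol (outerLen q N m) (q ^ m) := by
  classical
  obtain ⟨ι₁, G, i1, i2, i3, i4, h1, h2, h3⟩ := h
  have hsurj : ∃ φ : G → K, Function.Surjective φ := by
    have : Fintype.card K ≤ Fintype.card G := by rw [hq, h2]; exact hqP
    obtain ⟨f⟩ := Function.Embedding.nonempty_of_card_le this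
    exact ⟨Function.invFun f, Function.invFun_surjective f.injective⟩
  obtain ⟨φ, hφ⟩ := hsurj
  have hK : GCol ι₁ K := h3.merge hφ
  have key : ∀ m : ℕ, ∃ (ι G : Type) (_ : Fintype ι) (_ : DecidableEq ι) (_ : Fintype G)
      (_ : AddCommGroup G), Fintype.card ι = outerLen q N m ∧
      Fintype.card G = q ^ m ∧ GStr K ι G := by
    intro m
    induction m with
    | zero =>
      exact ⟨Empty, PUnit, inferInstance, inferInstance, inferInstance, inferInstance,
        rfl, by simp, gstr_base K⟩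
    | succ m ih =>
      obtain ⟨ι, G, j1, j2, j3, j4, e2, e3, e4⟩ := ih
      refine ⟨(K × ι) ⊕ ι₁, G × K, inferInstance, inferInstance, inferInstance,
        inferInstance, ?_, ?_, gstr_step e4 hK⟩
      · rw [Fintype.card_sum, Fintype.card_prod, hq, e2, h1]
        rfl
      · rw [Fintype.card_prod, e3, hq, pow_succ]
  obtain ⟨ι, G, j1, j2, j3, j4, e2, e3, c, π, lam, _, hc⟩ := key m
  refine ⟨ι, G, j1, j2, j3, j4, e2, e3, c, fun v γ hγ => ?_⟩
  obtain ⟨i, hi, _⟩ := hc v γ hγ
  exact ⟨i, hi⟩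

/-- A colouring gives a small covering code. -/
theorem HasCol.code {N P : ℕ} (h : HasCol N P) : ∃ (ι : Type) (_ : Fintype ι)
    (_ : DecidableEq ι) (H : Finset (ι → Bool)), Fintype.card ι = N ∧ Covers H ∧
      H.card * P ≤ 2 ^ N := by
  classical
  obtain ⟨ι, G, i1, i2, i3, i4, h1, h2, c, hc⟩ := h
  have hsum : ∑ a : G, (univ.filter (fun v : ι → Bool => c v = a)).card = 2 ^ N := by
    rw [← Finset.card_eq_sum_card_fiberwise (s := (univ : Finset (ι → Bool)))
      (t := (univ : Finset G)) (f := c) (fun x _ => Finset.mem_univ _), Finset.card_univ]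
    simp [h1]
  have hex : ∃ a : G, (univ.filter (fun v : ι → Bool => c v = a)).card * P ≤ 2 ^ N := by
    by_contra hcon
    push Not at hcon
    have h3 : ∑ a : G, 2 ^ N < ∑ a : G, (univ.filter (fun v : ι → Bool => c v = a)).card * P :=
      Finset.sum_lt_sum_of_nonempty Finset.univ_nonempty fun a _ => hcon a
    rw [← Finset.sum_mul, hsum, Finset.sum_const, Finset.card_univ, h2, smul_eq_mul,
      mul_comm] at h3
    exact lt_irrefl _ h3
  obtain ⟨a, ha⟩ := hex
  refine ⟨ι, i1, i2, univ.filter (fun v : ι → Bool => c v = a), h1, ?_, ha⟩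
  intro v hv
  have hv' : c v ≠ a := by simpa using hv
  obtain ⟨i, hi⟩ := hc v (a - c v) (sub_ne_zero.mpr (Ne.symm hv'))
  refine ⟨i, ?_⟩
  simp [hi]

end Pool.Agent.TH493.Boltz
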