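import Pool.Agent.TH493.RBM.Criterion

/-!
From a radius-one covering code and a levelling of its indicator function to a universal
restricted Boltzmann machine.
-/

namespace Pool.Agent.TH493.Boltz

open Finset Filter Topology

/-- The vector `v` with the bit `i` flipped. -/
def flip {ι : Type*} [DecidableEq ι] (v : ι → Bool) (i : ι) : ι → Bool :=
  Function.update v i (!(v i))

theorem flip_self {ι : Type*} [DecidableEq ι] (v : ι → Bool) (i : ι) : flip v i i = !(v i) := by
  simp [flip]

theorem flip_ne {ι : Type*} [DecidableEq ι] (v : ι → Bool) {i k : ι} (h : k ≠ i) :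
    flip v i k = v k := by
  simp [flip, h]

theorem flip_flip {ι : Type*} [DecidableEq ι] (v : ι → Bool) (i : ι) :
    flip (flip v i) i = v := by
  funext k
  by_cases h : k = i
  · subst h; rw [flip_self, flip_self, Bool.not_not]
  · rw [flip_ne _ h, flip_ne _ h]

theorem flip_ne_self {ι : Type*} [DecidableEq ι] (v : ι → Bool) (i : ι) : flip v i ≠ v := by
  intro h
  have := congrFun h i
  rw [flip_self] at this
  cases hv : v i <;> simp [hv] at this

/-- `H` is a covering code of radius one: each vector is in `H` or has a neighbour in `H`. -/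
def Covers {ι : Type*} [DecidableEq ι] (H : Finset (ι → Bool)) : Prop :=
  ∀ v, v ∉ H → ∃ i, flip v i ∈ H

/-- The function `-1_H` on the cube is, up to an affine function, a sum of functions
`max(0, affine)` indexed by `κ`. -/
def Levelled {ι : Type*} [Fintype ι] (κ : Type*) [Fintype κ] (H : Finset (ι → Bool)) : Prop :=
  ∃ (g : κ → ι → ℝ) (g0 : κ → ℝ) (b : ι → ℝ) (c : ℝ), ∀ v : ι → Bool,
    ∑ i, b i * bitVal (v i) + ∑ j, max 0 (g0 j + ∑ i, bitVal (v i) * g j i) + c =
      - (if v ∈ H then 1 else 0)

theorem sp_sub (x : ℝ) : sp x - x = sp (-x) := by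
  unfold sp
  rw [sub_eq_iff_eq_add, ← Real.log_exp x, ← Real.log_mul (one_add_exp_pos _).ne'
    (Real.exp_pos _).ne', Real.log_exp]
  congr 1
  rw [add_mul, ← Real.exp_add]
  simp [add_comm]

theorem sp_zero : sp 0 = Real.log 2 := by
  unfold sp; rw [Real.exp_zero]; norm_num

theorem sp_tendsto_atBot : Tendsto sp atBot (𝓝 0) := by
  have h1 : Tendsto (fun x : ℝ => 1 + Real.exp x) atBot (𝓝 (1 + 0)) :=
    tendsto_const_nhds.add Real.tendsto_exp_atBot
  have h2 := h1.log (by norm_num)
  rw [add_zero, Real.log_one] at h2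
  exact h2

theorem sp_sub_tendsto : Tendsto (fun x => sp x - x) atTop (𝓝 0) := by
  have h := sp_tendsto_atBot.comp tendsto_neg_atTop_atBot
  refine h.congr fun x => ?_
  exact (sp_sub x).symm

/-- `sp` takes every positive value. -/
theorem exists_sp_eq {y : ℝ} (hy : 0 < y) : ∃ x, sp x = y := by
  refine ⟨Real.log (Real.exp y - 1), ?_⟩
  have h1 : 0 < Real.exp y - 1 := by
    have := Real.add_one_lt_exp hy.ne'
    linarith
  unfold sp
  rw [Real.exp_log h1]
  have : 1 + (Real.exp y - 1) = Real.exp y := by ring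
  rw [this, Real.log_exp]

theorem relu_tendsto (g : ℝ) : Tendsto (fun L : ℝ => sp (L * g) - L * max 0 g) atTop
    (𝓝 (if g = 0 then Real.log 2 else 0)) := by
  rcases lt_trichotomy g 0 with h | h | h
  · rw [if_neg h.ne]
    have h1 : Tendsto (fun L : ℝ => L * g) atTop atBot := tendsto_id.atTop_mul_const_of_neg h
    refine (sp_tendsto_atBot.comp h1).congr fun L => ?_
    rw [max_eq_left h.le]
    simp
  · subst h
    rw [if_pos rfl]
    refine tendsto_const_nhds.congr fun L => ?_
    simp [sp_zero]
  · rw [if_neg h.ne']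
    have h1 : Tendsto (fun L : ℝ => L * g) atTop atTop := tendsto_id.atTop_mul_const h
    refine (sp_sub_tendsto.comp h1).congr fun L => ?_
    rw [max_eq_right h.le]
    rfl

/-- The set of coordinates where `v` and `h` differ. -/
def diffSet {ι : Type*} [Fintype ι] (h v : ι → Bool) : Finset ι := univ.filter (fun i => v i ≠ h i)

theorem diffSet_eq_empty {ι : Type*} [Fintype ι] {h v : ι → Bool} (hd : (diffSet h v).card = 0) : v = h := by
  rw [Finset.card_eq_zero] at hd
  funext i
  by_contra hne
  have : i ∈ diffSet h v := by simp [diffSet, hne]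
  rw [hd] at this
  simp at this

theorem diffSet_self {ι : Type*} [Fintype ι] (h : ι → Bool) : diffSet h h = ∅ := by
  simp [diffSet]

theorem eq_flip_of_diffSet {ι : Type*} [Fintype ι] [DecidableEq ι] {h v : ι → Bool} {i : ι}
    (hd : diffSet h v = {i}) : v = flip h i := by
  funext k
  by_cases hk : k = i
  · subst hk
    have : k ∈ diffSet h v := by rw [hd]; simp
    have h2 : v k ≠ h k := by simpa [diffSet] using this
    rw [flip_self]
    cases hv : v k <;> cases hh : h k <;> simp_all
  · rw [flip_ne _ hk]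
    by_contra hne
    have : k ∈ diffSet h v := by simp [diffSet, hne]
    rw [hd] at this
    exact hk (by simpa using this)

theorem diffSet_flip {ι : Type*} [Fintype ι] [DecidableEq ι] (v : ι → Bool) (i : ι) : diffSet (flip v i) v = {i} := by
  ext k
  simp only [diffSet, mem_filter, mem_univ, true_and, mem_singleton]
  by_cases hk : k = i
  · subst hk
    rw [flip_self]
    simp
  · rw [flip_ne _ hk]
    simp [hk]

/-- The argument of the star unit centred at `h`. -/
theorem star_arg {ι : Type*} [Fintype ι] (h v : ι → Bool) (A : ℝ) (be : ι → ℝ) :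
    (A + ∑ i, bitVal (h i) * (be i - A)) +
      ∑ i, bitVal (v i) * ((1 - 2 * bitVal (h i)) * (be i - A)) =
    A + ∑ i ∈ diffSet h v, (be i - A) := by
  rw [add_assoc, ← Finset.sum_add_distrib]
  congr 1
  unfold diffSet
  rw [Finset.sum_filter]
  refine Finset.sum_congr rfl fun i _ => ?_
  unfold bitVal
  (cases hh : h i <;> cases hv : v i <;> simp) <;> ring

/-- The limit behaviour of the star unit centred at `h`. -/
theorem star_tendsto {n : ℕ} (h v : Fin n → Bool) (al : ℝ) (B : (Fin n → Bool) → ℝ) :
    Tendsto (fun L : ℝ => sp (((L + al) + ∑ i, bitVal (h i) * (B (flip h i) - (L + al))) +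
      ∑ i, bitVal (v i) * ((1 - 2 * bitVal (h i)) * (B (flip h i) - (L + al)))) -
        L * (if v = h then 1 else 0)) atTop
    (𝓝 ((if v = h then al else 0) + (if (diffSet h v).card = 1 then sp (B v) else 0))) := by
  have hrw : ∀ L : ℝ, ((L + al) + ∑ i, bitVal (h i) * (B (flip h i) - (L + al))) +
      ∑ i, bitVal (v i) * ((1 - 2 * bitVal (h i)) * (B (flip h i) - (L + al))) =
      (L + al) + ∑ i ∈ diffSet h v, (B (flip h i) - (L + al)) := fun L =>
    star_arg h v (L + al) (fun i => B (flip h i))
  simp only [hrw]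
  by_cases h0 : v = h
  · subst h0
    have hne : ¬ ((diffSet v v).card = 1) := by rw [diffSet_self]; simp
    rw [if_neg hne, if_pos rfl, add_zero, diffSet_self]
    simp only [Finset.sum_empty, add_zero, if_true, mul_one]
    have h1 : Tendsto (fun L : ℝ => L + al) atTop atTop :=
      tendsto_atTop_add_const_right _ _ tendsto_id
    have h2 := (sp_sub_tendsto.comp h1).add_const al
    rw [zero_add] at h2
    refine h2.congr fun L => ?_
    show sp (L + al) - (L + al) + al = _
    ring
  · simp only [if_neg h0, mul_zero, sub_zero, zero_add]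
    by_cases h1 : (diffSet h v).card = 1
    · rw [if_pos h1]
      obtain ⟨i, hi⟩ := Finset.card_eq_one.mp h1
      have hv := eq_flip_of_diffSet hi
      rw [hi]
      simp only [Finset.sum_singleton]
      rw [← hv]
      refine tendsto_const_nhds.congr fun L => ?_
      congr 1
      ring
    · rw [if_neg h1]
      have hc : 2 ≤ (diffSet h v).card := by
        have : (diffSet h v).card ≠ 0 := fun hc => h0 (diffSet_eq_empty hc)
        omega
      have hrw2 : ∀ L : ℝ, (L + al) + ∑ i ∈ diffSet h v, (B (flip h i) - (L + al)) =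
          (∑ i ∈ diffSet h v, B (flip h i)) + (1 - ((diffSet h v).card : ℝ)) * (L + al) := by
        intro L
        rw [Finset.sum_sub_distrib, Finset.sum_const, nsmul_eq_mul]
        ring
      simp only [hrw2]
      refine sp_tendsto_atBot.comp ?_
      refine tendsto_atBot_add_const_left _ _ ?_
      have hneg : (1 - ((diffSet h v).card : ℝ)) < 0 := by
        have : (2 : ℝ) ≤ ((diffSet h v).card : ℝ) := by exact_mod_cast hc
        linarith
      refine Tendsto.const_mul_atTop_of_neg hneg ?_
      exact tendsto_atTop_add_const_right _ _ tendsto_id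

/-- The number of members of `H` at distance one from `v`. -/
def nbrs {n : ℕ} (H : Finset (Fin n → Bool)) (v : Fin n → Bool) : ℕ :=
  (H.filter (fun h => (diffSet h v).card = 1)).card

theorem nbrs_pos {n : ℕ} {H : Finset (Fin n → Bool)} (hH : Covers H) {v : Fin n → Bool}
    (hv : v ∉ H) : 0 < nbrs H v := by
  obtain ⟨i, hi⟩ := hH v hv
  refine Finset.card_pos.mpr ⟨flip v i, ?_⟩
  rw [Finset.mem_filter]
  refine ⟨hi, ?_⟩
  rw [diffSet_flip]; simp

/-- **Covering codes give universal machines.** -/
theorem universal_of_covers {n m : ℕ} {κ : Type*} [Fintype κ] {H : Finset (Fin n → Bool)}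
    (hH : Covers H) (hL : Levelled κ H) (hm : H.card + Fintype.card κ ≤ m) :
    IsUniversal n m := by
  obtain ⟨g, g0, b, c, hg⟩ := hL
  have hcard : Fintype.card ({x // x ∈ H} ⊕ κ) ≤ m := by
    rw [Fintype.card_sum, Fintype.card_coe]; exact hm
  refine universal_of_tendsto' hcard fun f => ?_
  -- the bounded contribution of the levelling units
  let G : κ → (Fin n → Bool) → ℝ := fun j v => g0 j + ∑ i, bitVal (v i) * g j i
  let D : (Fin n → Bool) → ℝ := fun v => ∑ j, (if G j v = 0 then Real.log 2 else 0)
  let C : ℝ := 1 + ∑ v, |f v - D v|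
  have hC : ∀ v, 0 < f v + C - D v := by
    intro v
    have h1 : |f v - D v| ≤ ∑ v, |f v - D v| :=
      Finset.single_le_sum (f := fun v => |f v - D v|) (fun u _ => abs_nonneg _) (Finset.mem_univ v)
    have h2 := neg_abs_le (f v - D v)
    show 0 < f v + (1 + ∑ v, |f v - D v|) - D v
    linarith
  -- values at the non-codewords
  have hB : ∀ v, ∃ x : ℝ, v ∉ H → (nbrs H v : ℝ) * sp x = f v + C - D v := by
    intro v
    by_cases hv : v ∈ H
    · exact ⟨0, fun h => absurd hv h⟩
    · have hN : (0 : ℝ) < nbrs H v := by exact_mod_cast nbrs_pos hH hv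
      obtain ⟨x, hx⟩ := exists_sp_eq (div_pos (hC v) hN)
      refine ⟨x, fun _ => ?_⟩
      rw [hx]
      field_simp
  choose B hB using hB
  let al : (Fin n → Bool) → ℝ := fun v => f v + C - D v - (nbrs H v : ℝ) * sp (B v)
  refine ⟨C, fun L => Sum.elim
      (fun h i => (1 - 2 * bitVal (h.1 i)) * (B (flip h.1 i) - (L + al h.1)))
      (fun j i => L * g j i),
    fun L => Sum.elim
      (fun h => (L + al h.1) + ∑ i, bitVal (h.1 i) * (B (flip h.1 i) - (L + al h.1)))
      (fun j => L * g0 j),
    fun L i => L * b i, fun L => L * c, fun v => ?_⟩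
  -- the limit of the star units
  have hstar : Tendsto (fun L : ℝ => ∑ h : {x // x ∈ H},
      (sp (((L + al h.1) + ∑ i, bitVal (h.1 i) * (B (flip h.1 i) - (L + al h.1))) +
      ∑ i, bitVal (v i) * ((1 - 2 * bitVal (h.1 i)) * (B (flip h.1 i) - (L + al h.1)))) -
        L * (if v = h.1 then 1 else 0))) atTop
      (𝓝 (∑ h : {x // x ∈ H}, ((if v = h.1 then al h.1 else 0) +
        (if (diffSet h.1 v).card = 1 then sp (B v) else 0)))) :=
    tendsto_finsetSum _ fun h _ => star_tendsto h.1 v (al h.1) B
  have hlev : Tendsto (fun L : ℝ => ∑ j : κ, (sp (L * G j v) - L * max 0 (G j v))) atTop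
      (𝓝 (D v)) :=
    tendsto_finsetSum _ fun j _ => relu_tendsto (G j v)
  have hval : (∑ h : {x // x ∈ H}, ((if v = h.1 then al h.1 else 0) +
        (if (diffSet h.1 v).card = 1 then sp (B v) else 0))) =
      (if v ∈ H then al v else 0) + (nbrs H v : ℝ) * sp (B v) := by
    rw [Finset.sum_add_distrib]
    congr 1
    · rw [Finset.sum_coe_sort H (fun h => if v = h then al h else 0), Finset.sum_ite_eq]
    · rw [Finset.sum_coe_sort H (fun h => if (diffSet h v).card = 1 then sp (B v) else 0),
        ← Finset.sum_filter, Finset.sum_const, nsmul_eq_mul]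
      rfl
  have htot := hstar.add hlev
  have hfin : (if v ∈ H then al v else 0) + (nbrs H v : ℝ) * sp (B v) + D v = f v + C := by
    by_cases hv : v ∈ H
    · rw [if_pos hv]
      show f v + C - D v - (nbrs H v : ℝ) * sp (B v) + (nbrs H v : ℝ) * sp (B v) + D v = _
      ring
    · rw [if_neg hv, hB v hv]
      ring
  rw [hval, hfin] at htot
  refine htot.congr fun L => ?_
  rw [Fintype.sum_sum_type]
  simp only [Sum.elim_inl, Sum.elim_inr]
  rw [Finset.sum_sub_distrib, Finset.sum_sub_distrib]
  have h1 : ∑ h : {x // x ∈ H}, L * (if v = h.1 then (1 : ℝ) else 0) =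
      L * (if v ∈ H then 1 else 0) := by
    rw [← Finset.mul_sum, Finset.sum_coe_sort H (fun h => if v = h then (1 : ℝ) else 0),
      Finset.sum_ite_eq]
  have h2 : ∀ j, L * g0 j + ∑ i, bitVal (v i) * (L * g j i) = L * G j v := by
    intro j
    show _ = L * (g0 j + ∑ i, bitVal (v i) * g j i)
    rw [mul_add, Finset.mul_sum]
    congr 1
    refine Finset.sum_congr rfl fun i _ => ?_
    ring
  have h3 : ∑ i, L * b i * bitVal (v i) = L * ∑ i, b i * bitVal (v i) := by
    rw [Finset.mul_sum]
    refine Finset.sum_congr rfl fun i _ => ?_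
    ring
  rw [h1, ← Finset.mul_sum, Finset.sum_congr rfl fun j _ => congrArg sp (h2 j), h3]
  have h4 := hg v
  have h5 : L * ∑ j, max 0 (G j v) = L * (- (if v ∈ H then 1 else 0) - c -
      ∑ i, b i * bitVal (v i)) := by
    congr 1
    show ∑ j, max 0 (g0 j + ∑ i, bitVal (v i) * g j i) = _
    linarith
  rw [h5]
  ring

end Pool.Agent.TH493.Boltz
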