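import Pool.Agent.TH493.RBM.Defs

/-!
Monotonicity in the number of hidden units and a limit criterion for universality.
-/

namespace Pool.Agent.TH493.Boltz

open Finset Filter Topology

theorem rbm_mono_succ (n m : ℕ) : RBM n m ⊆ RBM n (m + 1) := by
  rintro p ⟨W, b, c, rfl⟩
  refine ⟨fun i => Fin.snoc (W i) 0, b, Fin.snoc c 0, ?_⟩
  have h1 : ∀ v, mass (fun i => (Fin.snoc (W i) 0 : Fin (m + 1) → ℝ)) b
      (Fin.snoc c 0 : Fin (m + 1) → ℝ) v = 2 * mass W b c v := by
    intro v
    rw [mass_eq, mass_eq, Fin.sum_univ_castSucc]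
    simp only [Fin.snoc_castSucc, Fin.snoc_last, mul_zero, Finset.sum_const_zero, add_zero]
    rw [← add_assoc, Real.exp_add _ (sp 0), exp_sp, Real.exp_zero]
    ring
  funext v
  unfold rbmDist
  rw [h1 v, Finset.sum_congr rfl fun u _ => h1 u, ← Finset.mul_sum,
    mul_div_mul_left _ _ (two_ne_zero)]

theorem rbm_mono (n : ℕ) {m m' : ℕ} (h : m ≤ m') : RBM n m ⊆ RBM n m' := by
  induction h with
  | refl => exact subset_rfl
  | step _ ih => exact ih.trans (rbm_mono_succ n _)

theorem IsUniversal.mono {n m m' : ℕ} (hu : IsUniversal n m) (h : m ≤ m') :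
    IsUniversal n m' := by
  unfold IsUniversal at hu ⊢
  exact subset_antisymm (closure_subset n m') (hu ▸ closure_mono (rbm_mono n h))

/-- The closure of the model is everything as soon as it contains all positive distributions. -/
theorem universal_of_pos {n m : ℕ}
    (H : ∀ p ∈ stdSimplex ℝ (Fin n → Bool), (∀ v, 0 < p v) → p ∈ closure (RBM n m)) :
    IsUniversal n m := by
  refine subset_antisymm (closure_subset n m) ?_
  intro p hp
  set N : ℝ := ((Fintype.card (Fin n → Bool) : ℕ) : ℝ) with hN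
  have hN0 : 0 < N := by
    rw [hN]; exact_mod_cast Fintype.card_pos
  have hlim : Tendsto (fun t : ℝ => (fun v => (1 - t) * p v + t * (1 / N) : (Fin n → Bool) → ℝ))
      (𝓝[>] 0) (𝓝 p) := by
    have : Tendsto (fun t : ℝ => (fun v => (1 - t) * p v + t * (1 / N) : (Fin n → Bool) → ℝ))
        (𝓝 0) (𝓝 (fun v => (1 - 0) * p v + 0 * (1 / N))) := by
      refine Continuous.tendsto (f := fun t : ℝ =>
        (fun v => (1 - t) * p v + t * (1 / N) : (Fin n → Bool) → ℝ)) ?_ 0
      fun_prop
    have h2 : (fun v => (1 - 0) * p v + 0 * (1 / N)) = p := by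
      funext v; ring
    rw [h2] at this
    exact this.mono_left nhdsWithin_le_nhds
  rw [← closure_closure]
  refine mem_closure_of_tendsto hlim ?_
  have hev : ∀ᶠ t : ℝ in 𝓝[>] 0, t ∈ Set.Ioo (0 : ℝ) 1 :=
    Ioo_mem_nhdsGT one_pos
  filter_upwards [hev] with t ht
  refine H _ ⟨fun v => ?_, ?_⟩ fun v => ?_
  · have := hp.1 v
    have h1 : 0 ≤ (1 - t) * p v := mul_nonneg (by linarith [ht.2]) this
    have h2 : 0 < t * (1 / N) := mul_pos ht.1 (by positivity)
    linarith
  · rw [Finset.sum_add_distrib, ← Finset.mul_sum, hp.2, Finset.sum_const, Finset.card_univ,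
      nsmul_eq_mul, ← hN]
    field_simp
    ring
  · have := hp.1 v
    have h1 : 0 ≤ (1 - t) * p v := mul_nonneg (by linarith [ht.2]) this
    have h2 : 0 < t * (1 / N) := mul_pos ht.1 (by positivity)
    show 0 < (1 - t) * p v + t * (1 / N)
    linarith

/-- Limit criterion: if every function on the cube is, up to additive constants, a limit of
log-masses with units indexed by `ι`, then `RBM(n,m)` is universal for `m ≥ |ι|`. -/
theorem universal_of_tendsto {n m : ℕ} {ι : Type*} [Fintype ι] (hm : Fintype.card ι ≤ m)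
    (H : ∀ f : (Fin n → Bool) → ℝ, ∃ (a : ℝ → ι → Fin n → ℝ) (c : ℝ → ι → ℝ)
      (b : ℝ → Fin n → ℝ) (K : ℝ → ℝ), ∀ v, Tendsto (fun L : ℝ =>
        ∑ i, b L i * bitVal (v i) + ∑ j, sp (c L j + ∑ i, bitVal (v i) * a L j i) + K L)
        atTop (𝓝 (f v))) :
    IsUniversal n m := by
  refine IsUniversal.mono (m := Fintype.card ι) ?_ hm
  apply universal_of_pos
  intro p hp hpos
  obtain ⟨a, c, b, K, hlim⟩ := H (fun v => Real.log (p v))
  let e := Fintype.equivFin ι
  let F : ℝ → (Fin n → Bool) → ℝ := fun L =>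
    rbmDist (fun i j => a L (e.symm j) i) (b L) (fun j => c L (e.symm j))
  have hmass : ∀ L v, mass (fun i j => a L (e.symm j) i) (b L) (fun j => c L (e.symm j)) v =
      Real.exp (∑ i, b L i * bitVal (v i) +
        ∑ j, sp (c L j + ∑ i, bitVal (v i) * a L j i)) := by
    intro L v
    rw [mass_eq]
    congr 2
    exact Equiv.sum_comp e.symm (fun j => sp (c L j + ∑ i, bitVal (v i) * a L j i))
  have hF : ∀ L v, F L v = Real.exp (∑ i, b L i * bitVal (v i) +
        ∑ j, sp (c L j + ∑ i, bitVal (v i) * a L j i) + K L) /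
      ∑ u : Fin n → Bool, Real.exp (∑ i, b L i * bitVal (u i) +
        ∑ j, sp (c L j + ∑ i, bitVal (u i) * a L j i) + K L) := by
    intro L v
    show mass _ _ _ v / ∑ u, mass _ _ _ u = _
    rw [hmass, Finset.sum_congr rfl fun u _ => hmass L u]
    rw [Real.exp_add _ (K L), Finset.sum_congr rfl fun u _ => Real.exp_add _ (K L),
      ← Finset.sum_mul, mul_div_mul_right _ _ (Real.exp_pos _).ne']
  have hFlim : Tendsto F atTop (𝓝 p) := by
    rw [tendsto_pi_nhds]
    intro v
    have h1 : ∀ u, Tendsto (fun L => Real.exp (∑ i, b L i * bitVal (u i) +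
        ∑ j, sp (c L j + ∑ i, bitVal (u i) * a L j i) + K L)) atTop (𝓝 (p u)) := by
      intro u
      have := (Real.continuous_exp.tendsto _).comp (hlim u)
      rwa [Real.exp_log (hpos u)] at this
    have h2 : Tendsto (fun L => ∑ u : Fin n → Bool, Real.exp (∑ i, b L i * bitVal (u i) +
        ∑ j, sp (c L j + ∑ i, bitVal (u i) * a L j i) + K L)) atTop (𝓝 1) := by
      rw [← hp.2]
      exact tendsto_finsetSum _ fun u _ => h1 u
    have h3 := (h1 v).div h2 one_ne_zero
    rw [div_one] at h3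
    refine h3.congr fun L => ?_
    exact (hF L v).symm
  exact mem_closure_of_tendsto hFlim (Eventually.of_forall fun L => ⟨_, _, _, rfl⟩)

/-- Shifted version: it suffices to reach `f + C` for some constant `C` depending on `f`. -/
theorem universal_of_tendsto' {n m : ℕ} {ι : Type*} [Fintype ι] (hm : Fintype.card ι ≤ m)
    (H : ∀ f : (Fin n → Bool) → ℝ, ∃ (C : ℝ) (a : ℝ → ι → Fin n → ℝ) (c : ℝ → ι → ℝ)
      (b : ℝ → Fin n → ℝ) (K : ℝ → ℝ), ∀ v, Tendsto (fun L : ℝ =>
        ∑ i, b L i * bitVal (v i) + ∑ j, sp (c L j + ∑ i, bitVal (v i) * a L j i) + K L)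
        atTop (𝓝 (f v + C))) :
    IsUniversal n m := by
  refine universal_of_tendsto hm fun f => ?_
  obtain ⟨C, a, c, b, K, h⟩ := H f
  refine ⟨a, c, b, fun L => K L - C, fun v => ?_⟩
  have := (h v).sub_const C
  rw [add_sub_cancel_right] at this
  refine this.congr fun L => ?_
  ring

end Pool.Agent.TH493.Boltz
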