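import Mathlib

/-!
Definitions for binary restricted Boltzmann machines and the least number of hidden units
of a universal approximator.
-/

namespace Pool.Agent.TH493.Boltz

open Finset Filter Topology

/-- The number 0 or 1 given by a bit. -/
noncomputable def bitVal (x : Bool) : ℝ := if x then 1 else 0

/-- The exponent `b·v + c·h + vᵀ W h` of the restricted Boltzmann machine. -/
noncomputable def expo {n m : ℕ} (W : Fin n → Fin m → ℝ) (b : Fin n → ℝ) (c : Fin m → ℝ)
    (v : Fin n → Bool) (h : Fin m → Bool) : ℝ :=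
  ∑ i, b i * bitVal (v i) + ∑ j, c j * bitVal (h j) + ∑ i, ∑ j, bitVal (v i) * W i j * bitVal (h j)

/-- The unnormalised mass of the visible vector `v`: the sum over all hidden vectors. -/
noncomputable def mass {n m : ℕ} (W : Fin n → Fin m → ℝ) (b : Fin n → ℝ) (c : Fin m → ℝ)
    (v : Fin n → Bool) : ℝ :=
  ∑ h : Fin m → Bool, Real.exp (expo W b c v h)

/-- The probability distribution on visible vectors defined by the machine. -/
noncomputable def rbmDist {n m : ℕ} (W : Fin n → Fin m → ℝ) (b : Fin n → ℝ) (c : Fin m → ℝ) :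
    (Fin n → Bool) → ℝ :=
  fun v => mass W b c v / ∑ u : Fin n → Bool, mass W b c u

/-- The model `RBM(n,m)`: all distributions given by some parameters. -/
def RBM (n m : ℕ) : Set ((Fin n → Bool) → ℝ) :=
  {p | ∃ (W : Fin n → Fin m → ℝ) (b : Fin n → ℝ) (c : Fin m → ℝ), p = rbmDist W b c}

/-- `RBM(n,m)` is a universal approximator: its closure is the whole probability simplex. -/
def IsUniversal (n m : ℕ) : Prop :=
  closure (RBM n m) = stdSimplex ℝ (Fin n → Bool)

/-- `m*(n)`: the least number `m` of hidden units for which `RBM(n,m)` is a universal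
approximator. -/
noncomputable def mStar (n : ℕ) : ℕ := sInf {m | IsUniversal n m}

/-- The softplus function `log (1 + e^x)`. -/
noncomputable def sp (x : ℝ) : ℝ := Real.log (1 + Real.exp x)

theorem one_add_exp_pos (x : ℝ) : 0 < 1 + Real.exp x := by positivity

theorem exp_sp (x : ℝ) : Real.exp (sp x) = 1 + Real.exp x :=
  Real.exp_log (one_add_exp_pos x)

theorem sp_pos (x : ℝ) : 0 < sp x :=
  Real.log_pos (by linarith [Real.exp_pos x])

/-- The mass in product form. -/
theorem mass_eq {n m : ℕ} (W : Fin n → Fin m → ℝ) (b : Fin n → ℝ) (c : Fin m → ℝ)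
    (v : Fin n → Bool) :
    mass W b c v = Real.exp (∑ i, b i * bitVal (v i) +
      ∑ j, sp (c j + ∑ i, bitVal (v i) * W i j)) := by
  have h1 : ∀ h : Fin m → Bool, Real.exp (expo W b c v h) =
      Real.exp (∑ i, b i * bitVal (v i)) *
        ∏ j, (if h j then Real.exp (c j + ∑ i, bitVal (v i) * W i j) else 1) := by
    intro h
    have h2 : expo W b c v h = ∑ i, b i * bitVal (v i) +
        ∑ j, bitVal (h j) * (c j + ∑ i, bitVal (v i) * W i j) := by
      unfold expo
      rw [Finset.sum_comm (f := fun i j => bitVal (v i) * W i j * bitVal (h j)), add_assoc,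
        ← Finset.sum_add_distrib]
      congr 1
      refine Finset.sum_congr rfl fun j _ => ?_
      rw [mul_add, Finset.mul_sum]
      congr 1
      · ring
      · refine Finset.sum_congr rfl fun i _ => ?_
        ring
    rw [h2, Real.exp_add, Real.exp_sum (f := fun j => bitVal (h j) *
      (c j + ∑ i, bitVal (v i) * W i j))]
    congr 1
    refine Finset.prod_congr rfl fun j _ => ?_
    unfold bitVal
    by_cases hj : h j = true
    · simp [hj]
    · simp [hj]
  unfold mass
  rw [Finset.sum_congr rfl fun h _ => h1 h, ← Finset.mul_sum, Real.exp_add,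
    Real.exp_sum (f := fun j => sp (c j + ∑ i, bitVal (v i) * W i j))]
  congr 1
  have h3 : ∀ j, Real.exp (sp (c j + ∑ i, bitVal (v i) * W i j)) =
      ∑ x : Bool, (if x then Real.exp (c j + ∑ i, bitVal (v i) * W i j) else 1) := by
    intro j
    rw [exp_sp]
    simp [add_comm]
  rw [Finset.prod_congr rfl fun j _ => h3 j, Finset.prod_univ_sum, Fintype.piFinset_univ]

theorem mass_pos {n m : ℕ} (W : Fin n → Fin m → ℝ) (b : Fin n → ℝ) (c : Fin m → ℝ)
    (v : Fin n → Bool) : 0 < mass W b c v := by
  rw [mass_eq]; exact Real.exp_pos _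

theorem sum_mass_pos {n m : ℕ} (W : Fin n → Fin m → ℝ) (b : Fin n → ℝ) (c : Fin m → ℝ) :
    0 < ∑ u : Fin n → Bool, mass W b c u :=
  Finset.sum_pos (fun u _ => mass_pos W b c u) Finset.univ_nonempty

theorem rbmDist_mem {n m : ℕ} (W : Fin n → Fin m → ℝ) (b : Fin n → ℝ) (c : Fin m → ℝ) :
    rbmDist W b c ∈ stdSimplex ℝ (Fin n → Bool) := by
  refine ⟨fun v => div_nonneg (mass_pos W b c v).le (sum_mass_pos W b c).le, ?_⟩
  unfold rbmDist
  rw [← Finset.sum_div]
  exact div_self (sum_mass_pos W b c).ne'

theorem closure_subset (n m : ℕ) : closure (RBM n m) ⊆ stdSimplex ℝ (Fin n → Bool) := by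
  refine closure_minimal ?_ (isClosed_stdSimplex _ _)
  rintro p ⟨W, b, c, rfl⟩
  exact rbmDist_mem W b c

end Pool.Agent.TH493.Boltz
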