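import Pool.Agent.TH493.RBM.Coloring

/-!
Colourings of asymptotically optimal density in all dimensions.
-/

namespace Pool.Agent.TH493.Boltz

open Finset Filter Topology

/-- Powers of three just below powers of two. -/
theorem exists_three_two {δ : ℝ} (hδ : 0 < δ) : ∃ j k : ℕ, 1 ≤ j ∧ 3 ^ j < 2 ^ k ∧
    (1 - δ) * 2 ^ k ≤ 3 ^ j := by
  have hlog2 : 0 < Real.log 2 := Real.log_pos (by norm_num)
  have hlog3 : 0 < Real.log 3 := Real.log_pos (by norm_num)
  -- approximation from below
  have key : ∃ j k : ℕ, 1 ≤ j ∧ (j : ℝ) * Real.log 3 ≤ k * Real.log 2 ∧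
      (k : ℝ) * Real.log 2 - j * Real.log 3 ≤ δ * Real.log 2 := by
    set α : ℝ := Real.log 3 / Real.log 2 with hα
    have hα0 : 0 < α := div_pos hlog3 hlog2
    obtain ⟨n, hn⟩ := exists_nat_one_div_lt hδ
    obtain ⟨a, ha0, -, ha⟩ := Real.exists_nat_abs_mul_sub_round_le α (n := n + 1) (by omega)
    have hsmall : (1 : ℝ) / (((n + 1 : ℕ) : ℝ) + 1) ≤ δ := by
      refine le_trans ?_ hn.le
      apply one_div_le_one_div_of_le
      · positivity
      · push_cast; linarith
    set b : ℤ := round ((a : ℝ) * α) with hb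
    have hb0 : 0 ≤ b := by
      rw [hb, round_eq]
      refine Int.floor_nonneg.mpr ?_
      positivity
    obtain ⟨b', hb'⟩ : ∃ b' : ℕ, (b' : ℤ) = b := ⟨b.toNat, Int.toNat_of_nonneg hb0⟩
    have hbr : ((b' : ℕ) : ℝ) = (b : ℝ) := by rw [← hb']; norm_cast
    rw [← hbr] at ha
    have hle := le_trans ha hsmall
    have hconv : ∀ j k : ℕ, (j : ℝ) * α ≤ k → (k : ℝ) - j * α ≤ δ →
        (j : ℝ) * Real.log 3 ≤ k * Real.log 2 ∧
        (k : ℝ) * Real.log 2 - j * Real.log 3 ≤ δ * Real.log 2 := by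
      intro j k h1 h2
      have e : Real.log 3 = α * Real.log 2 := by rw [hα]; field_simp
      rw [e]
      constructor
      · calc (j : ℝ) * (α * Real.log 2) = (j * α) * Real.log 2 := by ring
          _ ≤ k * Real.log 2 := mul_le_mul_of_nonneg_right h1 hlog2.le
      · calc (k : ℝ) * Real.log 2 - j * (α * Real.log 2) = (k - j * α) * Real.log 2 := by ring
          _ ≤ δ * Real.log 2 := mul_le_mul_of_nonneg_right h2 hlog2.le
    rcases le_or_gt ((a : ℝ) * α) b' with h | h
    · refine ⟨a, b', ha0, hconv a b' h ?_⟩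
      have := (abs_le.mp hle).1
      linarith
    · set x : ℝ := (a : ℝ) * α - b' with hx
      have hx0 : 0 < x := by rw [hx]; linarith
      have hxδ : x ≤ δ := (abs_le.mp hle).2
      set M : ℕ := ⌊1 / x⌋₊ with hM
      have hM1 : (M : ℝ) * x ≤ 1 := by
        have := Nat.floor_le (a := 1 / x) (by positivity)
        rw [← hM] at this
        calc (M : ℝ) * x ≤ (1 / x) * x := mul_le_mul_of_nonneg_right this hx0.le
          _ = 1 := by field_simp
      have hM2 : 1 < ((M : ℝ) + 1) * x := by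
        have := Nat.lt_floor_add_one (1 / x)
        rw [← hM] at this
        calc (1 : ℝ) = (1 / x) * x := by field_simp
          _ < ((M : ℝ) + 1) * x := mul_lt_mul_of_pos_right this hx0
      rcases Nat.eq_zero_or_pos M with hM0 | hMpos
      · -- `x > 1`; then `δ > 1` and we may take `j = 1`
        rw [hM0] at hM2
        have hδ1 : 1 < δ := by
          have : (1 : ℝ) < x := by simpa using hM2
          linarith
        refine ⟨1, 2, le_rfl, hconv 1 2 ?_ ?_⟩
        · rw [hα, div_eq_mul_inv]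
          have : Real.log 3 ≤ 2 * Real.log 2 := by
            have h4 : (2 : ℝ) * Real.log 2 = Real.log 4 := by
              rw [show (4 : ℝ) = 2 ^ 2 by norm_num, Real.log_pow]; norm_num
            rw [h4]
            exact Real.log_le_log (by norm_num) (by norm_num)
          push_cast
          rw [← div_eq_mul_inv, one_mul, div_le_iff₀ hlog2]
          exact this
        · have : 1 ≤ α := by
            rw [hα, le_div_iff₀ hlog2, one_mul]
            exact Real.log_le_log (by norm_num) (by norm_num)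
          push_cast
          linarith
      · refine ⟨M * a, M * b' + 1, Nat.mul_pos hMpos ha0, hconv _ _ ?_ ?_⟩
        · push_cast
          have : (M : ℝ) * a * α = M * x + M * b' := by rw [hx]; ring
          rw [this]; linarith
        · push_cast
          have : (M : ℝ) * a * α = M * x + M * b' := by rw [hx]; ring
          rw [this]
          nlinarith [hM2, hxδ]
  obtain ⟨j, k, hj, h1, h2⟩ := key
  have e3 : ((3 : ℝ) ^ j) = Real.exp (j * Real.log 3) := by
    rw [← Real.log_pow, Real.exp_log (by positivity)]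
  have e2 : ((2 : ℝ) ^ k) = Real.exp (k * Real.log 2) := by
    rw [← Real.log_pow, Real.exp_log (by positivity)]
  refine ⟨j, k, hj, ?_, ?_⟩
  · have hle : (3 : ℝ) ^ j ≤ 2 ^ k := by
      rw [e3, e2]; exact Real.exp_le_exp.mpr h1
    have hle' : (3 : ℕ) ^ j ≤ 2 ^ k := by exact_mod_cast hle
    have hne : (3 : ℕ) ^ j ≠ 2 ^ k := by
      intro h
      have hodd : (3 ^ j) % 2 = 1 := by
        rw [Nat.pow_mod]; simp
      rcases Nat.eq_zero_or_pos k with rfl | hk
      · have : 3 ≤ 3 ^ j := by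
          calc 3 = 3 ^ 1 := by norm_num
            _ ≤ 3 ^ j := Nat.pow_le_pow_right (by norm_num) hj
        rw [h] at this
        norm_num at this
      · rw [h] at hodd
        obtain ⟨k', rfl⟩ : ∃ k', k = k' + 1 := ⟨k - 1, by omega⟩
        rw [pow_succ] at hodd
        omega
    omega
  · rw [e3, e2]
    have h3 : (1 - δ) ≤ Real.exp (-(δ * Real.log 2)) := by
      have h4 := Real.add_one_le_exp (-(δ * Real.log 2))
      have h5 : Real.log 2 ≤ 1 := by
        have := Real.log_le_sub_one_of_pos (show (0 : ℝ) < 2 by norm_num)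
        linarith
      nlinarith
    calc (1 - δ) * Real.exp (k * Real.log 2)
        ≤ Real.exp (-(δ * Real.log 2)) * Real.exp (k * Real.log 2) :=
          mul_le_mul_of_nonneg_right h3 (Real.exp_pos _).le
      _ = Real.exp (k * Real.log 2 - δ * Real.log 2) := by
          rw [← Real.exp_add]; congr 1; ring
      _ ≤ Real.exp (j * Real.log 3) := Real.exp_le_exp.mpr (by linarith)

/-- The efficiency identity. -/
theorem outer_identity {q B : ℕ} (hq : 1 ≤ q) (hqB : q ≤ B) (m : ℕ) :
    (q - 1) * (outerLen q (B - 1) m + 1) + (B - q) = (B - 1) * q ^ m := by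
  obtain ⟨r, rfl⟩ : ∃ r, q = r + 1 := ⟨q - 1, by omega⟩
  obtain ⟨t, rfl⟩ : ∃ t, B = r + 1 + t := ⟨B - (r + 1), by omega⟩
  induction m with
  | zero =>
    simp only [outerLen, pow_zero]
    omega
  | succ m ih =>
    simp only [outerLen, pow_succ] at ih ⊢
    have e1 : r + 1 + t - 1 = r + t := by omega
    have e2 : r + 1 + t - (r + 1) = t := by omega
    have e3 : r + 1 - 1 = r := by omega
    rw [e1, e2, e3] at ih ⊢
    calc r * ((r + 1) * outerLen (r + 1) (r + t) m + (r + t) + 1) + t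
        = (r * (outerLen (r + 1) (r + t) m + 1) + t) * (r + 1) := by ring
      _ = (r + t) * (r + 1) ^ m * (r + 1) := by rw [ih]
      _ = (r + t) * ((r + 1) ^ m * (r + 1)) := by ring

theorem outer_step_ge {q B : ℕ} (hq : 1 ≤ q) (hqB : q ≤ B) (m : ℕ) :
    q * (outerLen q (B - 1) m + 1) ≤ outerLen q (B - 1) (m + 1) + 1 := by
  simp only [outerLen]
  have : q * (outerLen q (B - 1) m + 1) = q * outerLen q (B - 1) m + q := by ring
  omega

/-- **Colourings of density tending to one in all dimensions.** -/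
theorem exists_dense_col {ε : ℝ} (hε : 0 < ε) (hε1 : ε < 1) : ∃ T0 : ℕ, ∀ T : ℕ, T0 ≤ T →
    ∃ N P : ℕ, HasCol N P ∧ N + 1 ≤ T ∧ (1 - ε) * T ≤ P := by
  obtain ⟨j, k, hj, hlt, hge⟩ := exists_three_two (show 0 < ε / 3 by linarith)
  set q : ℕ := 3 ^ j with hq
  set B : ℕ := 2 ^ k with hB
  have hq3 : 3 ≤ q := by
    calc 3 = 3 ^ 1 := by norm_num
      _ ≤ 3 ^ j := Nat.pow_le_pow_right (by norm_num) hj
  have hqB : q ≤ B := hlt.le
  have hB3 : 3 < B := by omega
  have hcol : ∀ m, HasCol (outerLen q (B - 1) m) (q ^ m) := by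
    intro m
    have : Fact (Nat.Prime 3) := ⟨Nat.prime_three⟩
    have : Fintype (GaloisField 3 j) := Fintype.ofFinite _
    have hcardK : Fintype.card (GaloisField 3 j) = q := by
      rw [← Nat.card_eq_fintype_card]
      exact GaloisField.card 3 j (by omega)
    exact hasCol_outer (hasCol_two_pow k) (GaloisField 3 j) hcardK hqB m
  -- a number of steps after which the ratio has dropped below one half
  have hM : ∃ M : ℕ, 2 * (outerLen q (B - 1) M + 1) ≤ B ^ M := by
    have hr : (q : ℝ) / B < 1 := by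
      rw [div_lt_one (by positivity)]
      exact_mod_cast hlt
    have hr0 : (0 : ℝ) ≤ (q : ℝ) / B := by positivity
    have hlim := (tendsto_pow_atTop_nhds_zero_of_lt_one hr0 hr)
    have hcpos : (0 : ℝ) < 1 / (2 * B) := by positivity
    obtain ⟨M, hM⟩ := ((tendsto_order.1 hlim).2 _ hcpos).exists
    refine ⟨M, ?_⟩
    have h1 := outer_identity (q := q) (B := B) (by omega) hqB M
    -- `2 A ≤ 2 (q-1) A ≤ 2 (B-1) q^M ≤ B^M`
    have h2 : (2 * B : ℝ) * q ^ M ≤ B ^ M := by
      have hBpos : (0 : ℝ) < (B : ℝ) ^ M := by positivity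
      rw [div_pow, div_lt_div_iff₀ hBpos (by positivity), one_mul] at hM
      linarith [hM]
    have h3 : 2 * B * q ^ M ≤ B ^ M := by exact_mod_cast h2
    have h4 : outerLen q (B - 1) M + 1 ≤ (q - 1) * (outerLen q (B - 1) M + 1) := by
      have : 1 ≤ q - 1 := by omega
      exact Nat.le_mul_of_pos_left _ this
    have h5 : (B - 1) * q ^ M ≤ B * q ^ M := Nat.mul_le_mul_right _ (by omega)
    have h6 : 2 * B * q ^ M = 2 * (B * q ^ M) := by ring
    omega
  obtain ⟨M, hM⟩ := hM
  refine ⟨2 ^ (k * M) + 1, fun T hT => ?_⟩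
  have hT0 : T ≠ 0 := by
    rintro rfl
    exact Nat.not_succ_le_zero _ hT
  set L : ℕ := Nat.log 2 T + 1 with hL
  have hL1 : T < 2 ^ L := Nat.lt_pow_succ_log_self (by norm_num) T
  have hL2 : 2 ^ L ≤ 2 * T := by
    rw [hL, pow_succ]
    have := Nat.pow_log_le_self 2 hT0
    omega
  have hLk : k * M ≤ L := by
    have : k * M ≤ Nat.log 2 T := by
      apply Nat.le_log_of_pow_le (by norm_num)
      exact le_trans (Nat.le_succ _) hT
    omega
  have hex : ∃ m, (outerLen q (B - 1) m + 1) * 2 ^ L ≤ T * B ^ m := by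
    refine ⟨M, ?_⟩
    calc (outerLen q (B - 1) M + 1) * 2 ^ L ≤ (outerLen q (B - 1) M + 1) * (2 * T) :=
          Nat.mul_le_mul_left _ hL2
      _ = (2 * (outerLen q (B - 1) M + 1)) * T := by ring
      _ ≤ B ^ M * T := Nat.mul_le_mul_right _ hM
      _ = T * B ^ M := by ring
  classical
  set m := Nat.find hex with hm
  have hm1 : (outerLen q (B - 1) m + 1) * 2 ^ L ≤ T * B ^ m := Nat.find_spec hex
  have hmM : m ≤ M := by
    apply Nat.find_min'
    calc (outerLen q (B - 1) M + 1) * 2 ^ L ≤ (outerLen q (B - 1) M + 1) * (2 * T) :=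
          Nat.mul_le_mul_left _ hL2
      _ = (2 * (outerLen q (B - 1) M + 1)) * T := by ring
      _ ≤ B ^ M * T := Nat.mul_le_mul_right _ hM
      _ = T * B ^ M := by ring
  have hm0 : m ≠ 0 := by
    intro h0
    rw [h0] at hm1
    simp only [outerLen, pow_zero, mul_one, zero_add, one_mul] at hm1
    omega
  obtain ⟨m', hm'⟩ : ∃ m', m = m' + 1 := ⟨m - 1, by omega⟩
  have hm2 : T * B ^ m' < (outerLen q (B - 1) m' + 1) * 2 ^ L := by
    have := Nat.find_min hex (m := m') (by rw [← hm]; omega)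
    omega
  set A := outerLen q (B - 1) m + 1 with hA
  have hAge : q * (outerLen q (B - 1) m' + 1) ≤ A := by
    rw [hA, hm']
    exact outer_step_ge (by omega) hqB m'
  -- the remaining power of two
  have hkm : k * m ≤ L := le_trans (Nat.mul_le_mul_left _ hmM) hLk
  set l := L - k * m with hl
  have hLl : 2 ^ L = 2 ^ l * B ^ m := by
    rw [hB, ← pow_mul, ← pow_add]; congr 1; omega
  have hBm : 0 < B ^ m := by positivity
  have hBm' : 0 < B ^ m' := by positivity
  have h1 : 2 ^ l * A ≤ T := by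
    rw [hLl] at hm1
    have : (2 ^ l * A) * B ^ m ≤ T * B ^ m := by
      calc (2 ^ l * A) * B ^ m = A * (2 ^ l * B ^ m) := by ring
        _ ≤ T * B ^ m := hm1
    exact Nat.le_of_mul_le_mul_right this hBm
  have h2 : q * T ≤ B * (2 ^ l * A) := by
    have e1 : q * T * B ^ m' ≤ B * (2 ^ l * A) * B ^ m' := by
      calc q * T * B ^ m' = q * (T * B ^ m') := by ring
        _ ≤ q * ((outerLen q (B - 1) m' + 1) * 2 ^ L) := Nat.mul_le_mul_left _ hm2.le
        _ = (q * (outerLen q (B - 1) m' + 1)) * 2 ^ L := by ring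
        _ ≤ A * 2 ^ L := Nat.mul_le_mul_right _ hAge
        _ = B * (2 ^ l * A) * B ^ m' := by rw [hLl, hm', pow_succ]; ring
    exact Nat.le_of_mul_le_mul_right e1 hBm'
  have h3 := outer_identity (q := q) (B := B) (by omega) hqB m
  rw [← hA] at h3
  have h4 : (q - 1) * A ≤ (B - 1) * q ^ m := by omega
  refine ⟨2 ^ l * A - 1, 2 ^ l * q ^ m, ?_, ?_, ?_⟩
  · have := (hcol m).double_iter l
    rwa [← hA] at this
  · have : 1 ≤ 2 ^ l * A := by
      have : 0 < 2 ^ l * A := by positivity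
      omega
    omega
  · -- real estimates
    have hBr : (3 : ℝ) < B := by exact_mod_cast hB3
    have hge' : (1 - ε / 3) * (B : ℝ) ≤ q := by
      rw [hB, hq]; push_cast; exact hge
    have h4r : ((q : ℝ) - 1) * A ≤ ((B : ℝ) - 1) * q ^ m := by
      have e1 : ((q - 1 : ℕ) : ℝ) = (q : ℝ) - 1 := by
        rw [Nat.cast_sub (by omega)]; norm_num
      have e2 : ((B - 1 : ℕ) : ℝ) = (B : ℝ) - 1 := by
        rw [Nat.cast_sub (by omega)]; norm_num
      rw [← e1, ← e2]
      exact_mod_cast h4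
    have h2r : (q : ℝ) * T ≤ B * (2 ^ l * A) := by exact_mod_cast h2
    have e5 : (1 - 2 * (ε / 3)) * ((B : ℝ) - 1) ≤ (q : ℝ) - 1 := by nlinarith
    have hA0 : (0 : ℝ) < A := by
      have : 0 < A := by rw [hA]; omega
      exact_mod_cast this
    have hTr : (0 : ℝ) ≤ T := by positivity
    -- `(1-2δ) A ≤ q^m`
    have e6 : (1 - 2 * (ε / 3)) * (A : ℝ) ≤ (q : ℝ) ^ m := by
      have hB1 : (0 : ℝ) < (B : ℝ) - 1 := by linarith
      have : ((B : ℝ) - 1) * ((1 - 2 * (ε / 3)) * (A : ℝ)) ≤ ((B : ℝ) - 1) * (q : ℝ) ^ m := by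
        calc ((B : ℝ) - 1) * ((1 - 2 * (ε / 3)) * (A : ℝ))
            = ((1 - 2 * (ε / 3)) * ((B : ℝ) - 1)) * A := by ring
          _ ≤ ((q : ℝ) - 1) * A := mul_le_mul_of_nonneg_right e5 hA0.le
          _ ≤ _ := h4r
      exact le_of_mul_le_mul_left this hB1
    -- `(1-δ) T ≤ 2^l A`
    have e7 : (1 - ε / 3) * (T : ℝ) ≤ 2 ^ l * A := by
      have hB0 : (0 : ℝ) < B := by linarith
      have : (B : ℝ) * ((1 - ε / 3) * (T : ℝ)) ≤ B * (2 ^ l * A) := by
        calc (B : ℝ) * ((1 - ε / 3) * (T : ℝ)) = ((1 - ε / 3) * B) * T := by ring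
          _ ≤ q * T := mul_le_mul_of_nonneg_right hge' hTr
          _ ≤ _ := h2r
      exact le_of_mul_le_mul_left this hB0
    push_cast
    have e8 : (0 : ℝ) ≤ 1 - 2 * (ε / 3) := by linarith
    have e9 : (0 : ℝ) < 2 ^ l := by positivity
    calc (1 - ε) * (T : ℝ) ≤ (1 - 2 * (ε / 3)) * ((1 - ε / 3) * (T : ℝ)) := by
          nlinarith [mul_nonneg hε.le hTr, mul_nonneg (mul_nonneg hε.le hε.le) hTr]
      _ ≤ (1 - 2 * (ε / 3)) * (2 ^ l * A) := mul_le_mul_of_nonneg_left e7 e8
      _ = 2 ^ l * ((1 - 2 * (ε / 3)) * A) := by ring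
      _ ≤ 2 ^ l * (q : ℝ) ^ m := mul_le_mul_of_nonneg_left e6 e9.le

end Pool.Agent.TH493.Boltz
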