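import Pool.Agent.TH493.RBM.Criterion

/-!
The parameter count: universality forces `(n+1)(m+1) ≥ 2^n`.
-/

namespace Pool.Agent.TH493.Boltz

open Finset MvPolynomial

/-- Names of the parameters: scale, visible biases, hidden biases, weights. -/
abbrev Par (n m : ℕ) := Unit ⊕ (Fin n ⊕ (Fin m ⊕ (Fin n × Fin m)))

theorem card_par (n m : ℕ) : Fintype.card (Par n m) = (n + 1) * (m + 1) := by
  simp [Par, Fintype.card_sum, Fintype.card_prod]
  ring

/-- The mass of a visible vector as a polynomial in the exponentials of the parameters. -/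
noncomputable def massPoly {n m : ℕ} (v : Fin n → Bool) : MvPolynomial (Par n m) ℝ :=
  X (Sum.inl ()) * (∏ i, (if v i then X (Sum.inr (Sum.inl i)) else 1)) *
    ∏ j : Fin m, (1 + X (Sum.inr (Sum.inr (Sum.inl j))) *
      ∏ i, (if v i then X (Sum.inr (Sum.inr (Sum.inr (i, j)))) else 1))

/-- The point with the given parameters. -/
noncomputable def parPoint {n m : ℕ} (s : ℝ) (W : Fin n → Fin m → ℝ) (b : Fin n → ℝ)
    (c : Fin m → ℝ) : Par n m → ℝ :=
  Sum.elim (fun _ => s) (Sum.elim (fun i => Real.exp (b i)) (Sum.elim (fun j => Real.exp (c j))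
    (fun p => Real.exp (W p.1 p.2))))

theorem eval_massPoly {n m : ℕ} (s : ℝ) (W : Fin n → Fin m → ℝ) (b : Fin n → ℝ)
    (c : Fin m → ℝ) (v : Fin n → Bool) :
    eval (parPoint s W b c) (massPoly v : MvPolynomial (Par n m) ℝ) = s * mass W b c v := by
  rw [mass_eq, Real.exp_add, Real.exp_sum (f := fun i => b i * bitVal (v i)),
    Real.exp_sum (f := fun j => sp (c j + ∑ i, bitVal (v i) * W i j)), ← mul_assoc]
  unfold massPoly
  rw [map_mul, map_mul, map_prod, map_prod]
  congr 1
  · rw [eval_X]
    congr 1
    refine Finset.prod_congr rfl fun i _ => ?_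
    unfold bitVal
    by_cases h : v i = true
    · simp [h, parPoint]
    · simp [h]
  · refine Finset.prod_congr rfl fun j _ => ?_
    rw [exp_sp, Real.exp_add, Real.exp_sum (f := fun i => bitVal (v i) * W i j), map_add,
      map_mul, map_one, eval_X, map_prod]
    congr 2
    refine Finset.prod_congr rfl fun i _ => ?_
    unfold bitVal
    by_cases h : v i = true
    · simp [h, parPoint]
    · simp [h]

/-- **Parameter count.** -/
theorem lower_bound {n m : ℕ} (hu : IsUniversal n m) : 2 ^ n ≤ (n + 1) * (m + 1) := by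
  by_contra hlt
  push Not at hlt
  have hdep : ¬ AlgebraicIndependent ℝ (fun v : Fin n → Bool =>
      (massPoly v : MvPolynomial (Par n m) ℝ)) := by
    intro h
    have h1 := h.cardinalMk_le_trdeg
    rw [MvPolynomial.trdeg_of_isDomain, Cardinal.lift_id, Cardinal.mk_fintype,
      Cardinal.mk_fintype, card_par] at h1
    have h2 : Fintype.card (Fin n → Bool) ≤ (n + 1) * (m + 1) := by exact_mod_cast h1
    have h3 : Fintype.card (Fin n → Bool) = 2 ^ n := by simp
    omega
  rw [algebraicIndependent_iff] at hdep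
  push Not at hdep
  obtain ⟨F, hF, hF0⟩ := hdep
  apply hF0
  -- `F` vanishes on all positive multiples of points of the model
  have hmodel : ∀ (s : ℝ) (p : (Fin n → Bool) → ℝ), p ∈ RBM n m → eval (s • p) F = 0 := by
    rintro s p ⟨W, b, c, rfl⟩
    set x := parPoint (s / ∑ u, mass W b c u) W b c with hx
    have h1 : (aeval x) (aeval (fun v : Fin n → Bool =>
        (massPoly v : MvPolynomial (Par n m) ℝ)) F) = 0 := by
      rw [hF, map_zero]
    rw [comp_aeval_apply] at h1
    have h2 : (fun v : Fin n → Bool => (aeval x) (massPoly v : MvPolynomial (Par n m) ℝ)) =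
        s • rbmDist W b c := by
      funext v
      rw [aeval_eq_eval, hx]
      show eval _ _ = s * (mass W b c v / ∑ u, mass W b c u)
      rw [eval_massPoly]
      ring
    rw [h2] at h1
    exact h1
  have hsimplex : ∀ (s : ℝ) (p : (Fin n → Bool) → ℝ), p ∈ stdSimplex ℝ (Fin n → Bool) →
      eval (s • p) F = 0 := by
    intro s p hp
    have hclosed : IsClosed {p : (Fin n → Bool) → ℝ | eval (s • p) F = 0} := by
      refine isClosed_eq ?_ continuous_const
      exact (MvPolynomial.continuous_eval F).comp (continuous_const_smul s)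
    have hsub : closure (RBM n m) ⊆ {p : (Fin n → Bool) → ℝ | eval (s • p) F = 0} :=
      closure_minimal (fun q hq => hmodel s q hq) hclosed
    have hu' : closure (RBM n m) = stdSimplex ℝ (Fin n → Bool) := hu
    rw [hu'] at hsub
    exact hsub hp
  refine MvPolynomial.funext_set (fun _ => Set.Ioi (0 : ℝ)) (fun _ => Set.Ioi_infinite 0) ?_
  intro y hy
  rw [map_zero]
  have hpos : ∀ v, 0 < y v := fun v => hy v (Set.mem_univ v)
  have hsum : 0 < ∑ v, y v := Finset.sum_pos (fun v _ => hpos v) Finset.univ_nonempty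
  have h1 := hsimplex (∑ v, y v) (fun v => y v / ∑ u, y u)
    ⟨fun v => (div_pos (hpos v) hsum).le, by rw [← Finset.sum_div, div_self hsum.ne']⟩
  have h2 : (∑ v, y v) • (fun v => y v / ∑ u, y u) = y := by
    funext v
    show (∑ v, y v) * (y v / ∑ u, y u) = y v
    field_simp
  rwa [h2] at h1

end Pool.Agent.TH493.Boltz
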