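import Pool.Agent.TH493.RBM.Hamming
import Pool.Agent.TH493.RBM.Density
import Pool.Agent.TH493.RBM.Lower

/-!
The asymptotics of the least number of hidden units.
-/

namespace Pool.Agent.TH493.Boltz

open Finset Filter Topology

theorem isUniversal_mStar (n : ℕ) : IsUniversal n (mStar n) := by
  have h : IsUniversal n (2 ^ (n - 0) + 3 * n ^ 2 / 4) :=
    universal_hamming (k := 0) (by simp) le_rfl
  exact Nat.sInf_mem (s := {m | IsUniversal n m}) ⟨_, h⟩

theorem mStar_le {n m : ℕ} (h : IsUniversal n m) : mStar n ≤ m := Nat.sInf_le h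

theorem isUniversal_iff (n m : ℕ) : IsUniversal n m ↔ mStar n ≤ m :=
  ⟨mStar_le, fun h => (isUniversal_mStar n).mono h⟩

/-- The upper bound from dense colourings. -/
theorem mStar_upper {ε : ℝ} (hε : 0 < ε) (hε1 : ε < 1) : ∃ T0 : ℕ, ∀ n s : ℕ, s ≤ n →
    T0 ≤ n - s + 1 →
    (mStar n : ℝ) * n / 2 ^ n ≤ n / ((1 - ε) * ((n : ℝ) - s + 1)) + n / 2 ^ s := by
  obtain ⟨T0, hT0⟩ := exists_dense_col hε hε1
  refine ⟨T0, fun n s hs hT => ?_⟩
  obtain ⟨N, P, hcol, hN, hP⟩ := hT0 _ hT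
  obtain ⟨ι, i1, i2, H, hcard, hcov, hHP⟩ := hcol.code
  have hNn : N ≤ n - s := by omega
  have huniv : IsUniversal n (H.card * 2 ^ (n - N) + 2 ^ N) := by
    refine universal_of_code hcov (levelled_trivial H) (by omega) ?_
    rw [hcard]
    simp [hcard]
  have hle := mStar_le huniv
  have hle' : (mStar n : ℝ) ≤ H.card * 2 ^ (n - N) + 2 ^ N := by exact_mod_cast hle
  have hTr : ((n - s + 1 : ℕ) : ℝ) = (n : ℝ) - s + 1 := by
    rw [Nat.cast_add, Nat.cast_sub hs]; norm_num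
  rw [hTr] at hP
  have hspos : (0 : ℝ) < (n : ℝ) - s + 1 := by
    have : (s : ℝ) ≤ n := by exact_mod_cast hs
    linarith
  have hD : 0 < (1 - ε) * ((n : ℝ) - s + 1) := mul_pos (by linarith) hspos
  have h2n : (0 : ℝ) < 2 ^ n := by positivity
  have h1 : (H.card : ℝ) * 2 ^ (n - N) ≤ 2 ^ n / ((1 - ε) * ((n : ℝ) - s + 1)) := by
    rw [le_div_iff₀ hD]
    have e1 : (H.card : ℝ) * P ≤ 2 ^ N := by exact_mod_cast hHP
    calc (H.card : ℝ) * 2 ^ (n - N) * ((1 - ε) * ((n : ℝ) - s + 1))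
        ≤ (H.card : ℝ) * 2 ^ (n - N) * P := mul_le_mul_of_nonneg_left hP (by positivity)
      _ = ((H.card : ℝ) * P) * 2 ^ (n - N) := by ring
      _ ≤ 2 ^ N * 2 ^ (n - N) := mul_le_mul_of_nonneg_right e1 (by positivity)
      _ = 2 ^ n := by rw [← pow_add]; congr 1; omega
  have h2 : (2 : ℝ) ^ N ≤ 2 ^ n / 2 ^ s := by
    rw [le_div_iff₀ (by positivity), ← pow_add]
    exact pow_le_pow_right₀ (by norm_num) (by omega)
  rw [div_le_iff₀ h2n]
  calc (mStar n : ℝ) * n ≤ (2 ^ n / ((1 - ε) * ((n : ℝ) - s + 1)) + 2 ^ n / 2 ^ s) * n := by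
        apply mul_le_mul_of_nonneg_right _ (by positivity)
        linarith
    _ = (n / ((1 - ε) * ((n : ℝ) - s + 1)) + n / 2 ^ s) * 2 ^ n := by ring

theorem tendsto_sqrt_atTop' : Tendsto (fun n : ℕ => Nat.sqrt n) atTop atTop := by
  rw [tendsto_atTop_atTop]
  intro b
  refine ⟨b * b, fun a ha => ?_⟩
  rw [Nat.le_sqrt]
  exact ha

theorem tendsto_div_pow : Tendsto (fun n : ℕ => (n : ℝ) / 2 ^ (Nat.sqrt n)) atTop (𝓝 0) := by
  have h1 : Tendsto (fun s : ℕ => ((s : ℝ) + 1) ^ 2 / 2 ^ s) atTop (𝓝 0) := by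
    have h2 := tendsto_pow_const_div_const_pow_of_one_lt 2 (show (1 : ℝ) < 2 by norm_num)
    have h3 := (h2.comp (tendsto_add_atTop_nat 1)).const_mul 2
    rw [mul_zero] at h3
    refine h3.congr fun s => ?_
    simp only [Function.comp]
    push_cast
    rw [pow_succ (2 : ℝ) s]
    field_simp
  have h4 := h1.comp tendsto_sqrt_atTop'
  refine squeeze_zero (fun n => by positivity) (fun n => ?_) h4
  simp only [Function.comp]
  apply div_le_div_of_nonneg_right _ (by positivity)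
  have : n < (Nat.sqrt n + 1) * (Nat.sqrt n + 1) := Nat.lt_succ_sqrt n
  have h5 : (n : ℝ) ≤ ((Nat.sqrt n + 1) * (Nat.sqrt n + 1) : ℕ) := by exact_mod_cast this.le
  push_cast at h5
  linarith [h5, sq ((Nat.sqrt n : ℝ) + 1)]

theorem tendsto_sqrt_div : Tendsto (fun n : ℕ => (Nat.sqrt n : ℝ) / n) atTop (𝓝 0) := by
  have h1 : Tendsto (fun n : ℕ => (1 : ℝ) / Nat.sqrt n) atTop (𝓝 0) :=
    tendsto_one_div_atTop_nhds_zero_nat.comp tendsto_sqrt_atTop'
  refine squeeze_zero' (Eventually.of_forall fun n => by positivity) ?_ h1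
  filter_upwards [eventually_ge_atTop 1] with n hn
  have hs : 1 ≤ Nat.sqrt n := Nat.le_sqrt.mpr (by simpa using hn)
  have hs0 : (0 : ℝ) < Nat.sqrt n := by exact_mod_cast hs
  have hn0 : (0 : ℝ) < n := by exact_mod_cast hn
  rw [div_le_div_iff₀ hn0 hs0]
  have : Nat.sqrt n * Nat.sqrt n ≤ n := Nat.sqrt_le n
  have h2 : ((Nat.sqrt n * Nat.sqrt n : ℕ) : ℝ) ≤ n := by exact_mod_cast this
  push_cast at h2
  linarith

theorem tendsto_main_factor : Tendsto (fun n : ℕ => (n : ℝ) / ((n : ℝ) - Nat.sqrt n + 1))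
    atTop (𝓝 1) := by
  have h1 : Tendsto (fun n : ℕ => 1 - (Nat.sqrt n : ℝ) / n + 1 / n) atTop (𝓝 (1 - 0 + 0)) :=
    (tendsto_const_nhds.sub tendsto_sqrt_div).add tendsto_one_div_atTop_nhds_zero_nat
  have h2 := h1.inv₀ (by norm_num)
  have h3 : ((1 : ℝ) - 0 + 0)⁻¹ = 1 := by norm_num
  rw [h3] at h2
  refine h2.congr' ?_
  filter_upwards [eventually_ge_atTop 1] with n hn
  have hn0 : (0 : ℝ) < n := by exact_mod_cast hn
  have h4 : (1 : ℝ) - (Nat.sqrt n : ℝ) / n + 1 / n = ((n : ℝ) - Nat.sqrt n + 1) / n := by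
    field_simp
  rw [h4, inv_div]

/-- **Asymptotics of `m*(n)`.** -/
theorem tendsto_mStar : Tendsto (fun n : ℕ => (mStar n : ℝ) * n / 2 ^ n) atTop (𝓝 1) := by
  rw [tendsto_order]
  constructor
  · intro a ha
    have h1 : Tendsto (fun n : ℕ => (n : ℝ) / ((n : ℝ) + 1) - (n : ℝ) / 2 ^ n) atTop
        (𝓝 (1 - 0)) := by
      refine Tendsto.sub (tendsto_natCast_div_add_atTop (1 : ℝ)) ?_
      have := tendsto_pow_const_div_const_pow_of_one_lt 1 (show (1 : ℝ) < 2 by norm_num)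
      simpa using this
    rw [sub_zero] at h1
    filter_upwards [(tendsto_order.1 h1).1 a ha] with n hn
    refine lt_of_lt_of_le hn ?_
    have h2 := lower_bound (isUniversal_mStar n)
    have h3 : (2 : ℝ) ^ n ≤ ((n : ℝ) + 1) * ((mStar n : ℝ) + 1) := by exact_mod_cast h2
    have h2n : (0 : ℝ) < 2 ^ n := by positivity
    have hn1 : (0 : ℝ) < (n : ℝ) + 1 := by positivity
    rw [le_div_iff₀ h2n, sub_mul, div_mul_cancel₀ _ h2n.ne']
    have h4 : (n : ℝ) / ((n : ℝ) + 1) * 2 ^ n ≤ n * ((mStar n : ℝ) + 1) := by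
      calc (n : ℝ) / ((n : ℝ) + 1) * 2 ^ n
          ≤ (n : ℝ) / ((n : ℝ) + 1) * (((n : ℝ) + 1) * ((mStar n : ℝ) + 1)) :=
            mul_le_mul_of_nonneg_left h3 (by positivity)
        _ = n * ((mStar n : ℝ) + 1) := by field_simp
    linarith
  · intro a ha
    set ε : ℝ := (a - 1) / (2 * a) with hε
    have ha0 : 0 < a := by linarith
    have hε0 : 0 < ε := div_pos (by linarith) (by linarith)
    have hε1 : ε < 1 := by
      rw [hε, div_lt_one (by linarith)]; linarith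
    obtain ⟨T0, hT0⟩ := mStar_upper hε0 hε1
    have h1 : Tendsto (fun n : ℕ => (1 / (1 - ε)) * ((n : ℝ) / ((n : ℝ) - Nat.sqrt n + 1)) +
        (n : ℝ) / 2 ^ (Nat.sqrt n)) atTop (𝓝 ((1 / (1 - ε)) * 1 + 0)) :=
      (tendsto_main_factor.const_mul _).add tendsto_div_pow
    have hlt : (1 / (1 - ε)) * 1 + 0 < a := by
      have h2 : 1 - ε = (a + 1) / (2 * a) := by rw [hε]; field_simp; ring
      rw [h2, mul_one, add_zero, one_div_div, div_lt_iff₀ (by linarith)]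
      nlinarith
    have hev := (tendsto_order.1 h1).2 a hlt
    have hev2 : ∀ᶠ n : ℕ in atTop, T0 ≤ n - Nat.sqrt n + 1 := by
      filter_upwards [eventually_ge_atTop (T0 * T0 + 4)] with n hn
      have hs : Nat.sqrt n * Nat.sqrt n ≤ n := Nat.sqrt_le n
      have hT : T0 ≤ Nat.sqrt n := Nat.le_sqrt.mpr (by omega)
      have h2 : 2 ≤ Nat.sqrt n := Nat.le_sqrt.mpr (by omega)
      have h3 : 2 * Nat.sqrt n ≤ Nat.sqrt n * Nat.sqrt n := Nat.mul_le_mul_right _ h2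
      omega
    filter_upwards [hev, hev2] with n h2 h3
    refine lt_of_le_of_lt (hT0 n (Nat.sqrt n) (Nat.sqrt_le_self n) h3) ?_
    have e : (n : ℝ) / ((1 - ε) * ((n : ℝ) - Nat.sqrt n + 1)) =
        (1 / (1 - ε)) * ((n : ℝ) / ((n : ℝ) - Nat.sqrt n + 1)) := by
      rw [one_div, ← div_eq_inv_mul, div_div, mul_comm ((n : ℝ) - Nat.sqrt n + 1)]
    rw [e]
    exact h2

end Pool.Agent.TH493.Boltz
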