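import Pool.Agent.TH493.RBM.Transfer

/-!
Levelling of sets whose indicator function is a non-negative combination of parities, with
quadratically many units.
-/

namespace Pool.Agent.TH493.Boltz

open Finset

theorem sum_relu_linear (s : ℝ) (J : ℕ) (h : (2 * J : ℝ) ≤ s) :
    ∑ j ∈ range J, 8 * max 0 (s - 2 * ((j : ℝ) + 1)) = 8 * (J * s - J * (J + 1)) := by
  induction J with
  | zero => simp
  | succ J ih =>
    push_cast at h ⊢
    rw [Finset.sum_range_succ, ih (by linarith), max_eq_right (by linarith)]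
    ring

theorem neg_parity_identity (J : ℕ) : ∀ s : ℕ, s ≤ 2 * (J + 1) →
    -(-1 : ℝ) ^ s + 2 * (s : ℝ) ^ 2 =
      -1 + 4 * s + ∑ j ∈ range J, 8 * max 0 ((s : ℝ) - 2 * ((j : ℝ) + 1)) := by
  induction J with
  | zero =>
    intro s hs
    have : s = 0 ∨ s = 1 ∨ s = 2 := by omega
    rcases this with rfl | rfl | rfl <;> norm_num
  | succ J ih =>
    intro s hs
    rcases Nat.lt_or_ge (2 * (J + 1)) s with h | h
    · have h1 : (2 * ((J + 1 : ℕ) : ℝ)) ≤ s := by exact_mod_cast h.le
      rw [sum_relu_linear (s : ℝ) (J + 1) h1]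
      have h2 : s = 2 * J + 3 ∨ s = 2 * J + 4 := by omega
      rcases h2 with rfl | rfl
      · have e1 : (-1 : ℝ) ^ (2 * J + 3) = -1 := by
          rw [pow_add, pow_mul]; norm_num
        rw [e1]
        push_cast
        ring
      · have e1 : (-1 : ℝ) ^ (2 * J + 4) = 1 := by
          rw [pow_add, pow_mul]; norm_num
        rw [e1]
        push_cast
        ring
    · rw [ih s h, Finset.sum_range_succ]
      have h3 : ((s : ℝ) - 2 * ((J : ℝ) + 1)) ≤ 0 := by
        have : (s : ℝ) ≤ 2 * ((J : ℝ) + 1) := by exact_mod_cast h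
        linarith
      rw [max_eq_left h3]
      ring

/-- The index type of ordered pairs. -/
abbrev Pairs (N : ℕ) := {p : Fin N × Fin N // p.1 < p.2}

theorem card_pairs (N : ℕ) : 2 * Fintype.card (Pairs N) = N * (N - 1) := by
  have h1 : Fintype.card (Pairs N) + Fintype.card {p : Fin N × Fin N // p.2 < p.1} +
      Fintype.card {p : Fin N × Fin N // p.1 = p.2} = N * N := by
    have h2 : (univ.filter (fun p : Fin N × Fin N => p.1 < p.2)).card +
        (univ.filter (fun p : Fin N × Fin N => p.2 < p.1)).card +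
        (univ.filter (fun p : Fin N × Fin N => p.1 = p.2)).card =
        (univ : Finset (Fin N × Fin N)).card := by
      rw [← Finset.card_union_of_disjoint, ← Finset.card_union_of_disjoint]
      · congr 1
        ext p
        simp only [mem_union, mem_filter, mem_univ, true_and, iff_true]
        rcases lt_trichotomy p.1 p.2 with h | h | h
        · exact Or.inl (Or.inl h)
        · exact Or.inr h
        · exact Or.inl (Or.inr h)
      · rw [Finset.disjoint_left]
        intro p hp hq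
        simp only [mem_union, mem_filter, mem_univ, true_and] at hp hq
        rcases hp with h | h
        · exact absurd hq h.ne
        · exact absurd hq h.ne'
      · rw [Finset.disjoint_left]
        intro p hp hq
        simp only [mem_filter, mem_univ, true_and] at hp hq
        exact lt_asymm hp hq
    rw [Finset.card_univ, Fintype.card_prod, Fintype.card_fin] at h2
    rw [Fintype.card_subtype, Fintype.card_subtype, Fintype.card_subtype]
    exact h2
  have h3 : Fintype.card {p : Fin N × Fin N // p.2 < p.1} = Fintype.card (Pairs N) := by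
    refine Fintype.card_congr ⟨fun p => ⟨(p.1.2, p.1.1), p.2⟩, fun p => ⟨(p.1.2, p.1.1), p.2⟩,
      fun p => rfl, fun p => rfl⟩
  have h4 : Fintype.card {p : Fin N × Fin N // p.1 = p.2} = N := by
    have : Fintype.card {p : Fin N × Fin N // p.1 = p.2} = Fintype.card (Fin N) := by
      refine Fintype.card_congr ⟨fun p => p.1.1, fun i => ⟨(i, i), rfl⟩, ?_, fun i => rfl⟩
      rintro ⟨⟨a, b⟩, hab⟩
      simp only at hab
      subst hab
      rfl
    rw [this, Fintype.card_fin]
  rw [h3, h4] at h1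
  have h5 : N * (N - 1) = N * N - N := by
    rw [Nat.mul_sub, mul_one]
  omega

/-- The square of a sum of idempotents. -/
theorem sq_sum_pairs {N : ℕ} (x : Fin N → ℝ) (hx : ∀ i, x i * x i = x i) :
    (∑ i, x i) ^ 2 = ∑ i, x i + 2 * ∑ p : Pairs N, x p.1.1 * x p.1.2 := by
  have h0 : (∑ i, x i) ^ 2 = ∑ p : Fin N × Fin N, x p.1 * x p.2 := by
    rw [sq, Finset.sum_mul_sum, Fintype.sum_prod_type]
  have hsplit : ∑ p : Fin N × Fin N, x p.1 * x p.2 =
      (∑ p ∈ univ.filter (fun p : Fin N × Fin N => p.1 < p.2), x p.1 * x p.2) +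
      (∑ p ∈ univ.filter (fun p : Fin N × Fin N => p.2 < p.1), x p.1 * x p.2) +
      (∑ p ∈ univ.filter (fun p : Fin N × Fin N => p.1 = p.2), x p.1 * x p.2) := by
    rw [Finset.sum_filter, Finset.sum_filter, Finset.sum_filter, ← Finset.sum_add_distrib,
      ← Finset.sum_add_distrib]
    refine Finset.sum_congr rfl fun p _ => ?_
    rcases lt_trichotomy p.1 p.2 with h | h | h
    · rw [if_pos h, if_neg (not_lt.mpr h.le), if_neg h.ne]; ring
    · rw [if_neg (by rw [h]; exact lt_irrefl _), if_neg (by rw [h]; exact lt_irrefl _),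
        if_pos h]; ring
    · rw [if_neg (not_lt.mpr h.le), if_pos h, if_neg h.ne']; ring
  have h1 : (∑ p ∈ univ.filter (fun p : Fin N × Fin N => p.2 < p.1), x p.1 * x p.2) =
      (∑ p ∈ univ.filter (fun p : Fin N × Fin N => p.1 < p.2), x p.1 * x p.2) := by
    refine Finset.sum_bij (fun p _ => (p.2, p.1)) ?_ ?_ ?_ ?_
    · intro p hp; simpa using hp
    · rintro ⟨a, b⟩ _ ⟨c, d⟩ _ h
      simp only [Prod.mk.injEq] at h ⊢
      exact ⟨h.2, h.1⟩
    · rintro ⟨a, b⟩ hp
      exact ⟨(b, a), by simpa using hp, rfl⟩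
    · intro p _; exact mul_comm _ _
  have h2 : (∑ p ∈ univ.filter (fun p : Fin N × Fin N => p.1 = p.2), x p.1 * x p.2) =
      ∑ i, x i := by
    refine (Finset.sum_bij (fun i _ => (i, i)) ?_ ?_ ?_ ?_).symm
    · intro i _; simp
    · intro i _ j _ h
      simp only [Prod.mk.injEq] at h
      exact h.1
    · rintro ⟨a, b⟩ hp
      simp only [mem_filter, mem_univ, true_and] at hp
      subst hp
      exact ⟨a, Finset.mem_univ _, rfl⟩
    · intro i _; exact (hx i).symm
  have h3 : (∑ p ∈ univ.filter (fun p : Fin N × Fin N => p.1 < p.2), x p.1 * x p.2) =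
      ∑ p : Pairs N, x p.1.1 * x p.1.2 := by
    exact (Finset.sum_subtype (p := fun p : Fin N × Fin N => p.1 < p.2) _
      (fun p => by simp) (fun p => x p.1 * x p.2))
  rw [h0, hsplit, h1, h2, h3]
  ring

/-- Levelling by parities. -/
theorem levelled_parity {N : ℕ} {H : Finset (Fin N → Bool)} {U : Type} [Fintype U]
    (S : U → Finset (Fin N)) (c : U → ℝ) (hc : ∀ u, 0 ≤ c u) (c0 : ℝ)
    (hH : ∀ v, (if v ∈ H then (1 : ℝ) else 0) =
      ∑ u, c u * (-1) ^ ((S u).filter (fun i => v i = true)).card + c0) :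
    Levelled ((Σ u : U, Fin (((S u).card - 1) / 2)) ⊕ Pairs N) H := by
  let Q : Pairs N → ℝ := fun p => ∑ u, 4 * c u * (if p.1.1 ∈ S u ∧ p.1.2 ∈ S u then 1 else 0)
  have hQ : ∀ p, 0 ≤ Q p := fun p => Finset.sum_nonneg fun u _ => by
    have := hc u
    split_ifs <;> simp [this]
  refine ⟨Sum.elim (fun x i => if i ∈ S x.1 then 8 * c x.1 else 0)
      (fun p i => Q p * ((if i = p.1.1 then 1 else 0) - (if i = p.1.2 then 1 else 0))),
    Sum.elim (fun x => -(8 * c x.1) * (2 * (((x.2 : ℕ) : ℝ) + 1))) (fun _ => 0),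
    fun i => (∑ u, if i ∈ S u then 2 * c u else 0) - ∑ p : Pairs N, if p.1.1 = i then Q p else 0,
    -c0 - ∑ u, c u, fun v => ?_⟩
  -- the count
  let t : U → ℕ := fun u => ((S u).filter (fun i => v i = true)).card
  have ht : ∀ u, ∑ i, bitVal (v i) * (if i ∈ S u then (1 : ℝ) else 0) = t u := by
    intro u
    show _ = ((((S u).filter (fun i => v i = true)).card : ℕ) : ℝ)
    rw [Finset.card_filter, Nat.cast_sum]
    rw [← Finset.sum_filter_add_sum_filter_not univ (fun i => i ∈ S u)]
    have e2 : ∑ i ∈ univ.filter (fun i => ¬ i ∈ S u),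
        bitVal (v i) * (if i ∈ S u then (1 : ℝ) else 0) = 0 := by
      refine Finset.sum_eq_zero fun i hi => ?_
      rw [Finset.mem_filter] at hi
      rw [if_neg hi.2, mul_zero]
    rw [e2, add_zero]
    have e3 : univ.filter (fun i => i ∈ S u) = S u := by ext i; simp
    rw [e3]
    refine Finset.sum_congr rfl fun i hi => ?_
    rw [if_pos hi, mul_one]
    unfold bitVal
    split_ifs <;> simp
  have htle : ∀ u, t u ≤ 2 * (((S u).card - 1) / 2 + 1) := by
    intro u
    have : t u ≤ (S u).card := Finset.card_filter_le _ _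
    omega
  -- first group of units
  have hA : ∀ x : Σ u : U, Fin (((S u).card - 1) / 2),
      max 0 (-(8 * c x.1) * (2 * (((x.2 : ℕ) : ℝ) + 1)) +
        ∑ i, bitVal (v i) * (if i ∈ S x.1 then 8 * c x.1 else 0)) =
      c x.1 * (8 * max 0 ((t x.1 : ℝ) - 2 * (((x.2 : ℕ) : ℝ) + 1))) := by
    intro x
    have e1 : ∑ i, bitVal (v i) * (if i ∈ S x.1 then 8 * c x.1 else 0) =
        8 * c x.1 * t x.1 := by
      rw [← ht x.1, Finset.mul_sum]
      refine Finset.sum_congr rfl fun i _ => ?_
      split_ifs <;> ring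
    rw [e1]
    have e2 : -(8 * c x.1) * (2 * (((x.2 : ℕ) : ℝ) + 1)) + 8 * c x.1 * t x.1 =
        (8 * c x.1) * ((t x.1 : ℝ) - 2 * (((x.2 : ℕ) : ℝ) + 1)) := by ring
    rw [e2]
    have e3 : (0 : ℝ) = (8 * c x.1) * 0 := by ring
    nth_rewrite 1 [e3]
    rw [← mul_max_of_nonneg _ _ (by have := hc x.1; positivity)]
    ring
  have hA2 : ∑ x : (Σ u : U, Fin (((S u).card - 1) / 2)),
      c x.1 * (8 * max 0 ((t x.1 : ℝ) - 2 * (((x.2 : ℕ) : ℝ) + 1))) =
      ∑ u, c u * (-(-1 : ℝ) ^ (t u) + 2 * (t u : ℝ) ^ 2 + 1 - 4 * t u) := by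
    rw [Fintype.sum_sigma]
    refine Finset.sum_congr rfl fun u _ => ?_
    show ∑ y : Fin (((S u).card - 1) / 2),
      c u * (8 * max 0 ((t u : ℝ) - 2 * (((y : ℕ) : ℝ) + 1))) = _
    rw [← Finset.mul_sum]
    congr 1
    rw [neg_parity_identity _ (t u) (htle u), Fin.sum_univ_eq_sum_range
      (fun j => 8 * max 0 ((t u : ℝ) - 2 * ((j : ℝ) + 1)))]
    ring
  -- second group of units
  have hB : ∀ p : Pairs N, max 0 (0 + ∑ i, bitVal (v i) * (Q p *
      ((if i = p.1.1 then 1 else 0) - (if i = p.1.2 then 1 else 0)))) =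
      Q p * (bitVal (v p.1.1) - bitVal (v p.1.1) * bitVal (v p.1.2)) := by
    intro p
    have e1 : ∑ i, bitVal (v i) * (Q p *
        ((if i = p.1.1 then 1 else 0) - (if i = p.1.2 then 1 else 0))) =
        Q p * (bitVal (v p.1.1) - bitVal (v p.1.2)) := by
      have e2 : ∀ a : Fin N, ∑ i, bitVal (v i) * (if i = a then (1 : ℝ) else 0) =
          bitVal (v a) := by
        intro a
        simp
      rw [← e2 p.1.1, ← e2 p.1.2, ← Finset.sum_sub_distrib, Finset.mul_sum]
      refine Finset.sum_congr rfl fun i _ => ?_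
      ring
    rw [zero_add, e1]
    have e3 : (0 : ℝ) = Q p * 0 := by ring
    nth_rewrite 1 [e3]
    rw [← mul_max_of_nonneg _ _ (hQ p)]
    congr 1
    unfold bitVal
    cases v p.1.1 <;> cases v p.1.2 <;> norm_num
  -- the quadratic part
  have hquad : ∑ u, c u * (2 * (t u : ℝ) ^ 2) =
      ∑ u, 2 * c u * t u + ∑ p : Pairs N, Q p * (bitVal (v p.1.1) * bitVal (v p.1.2)) := by
    have e1 : ∀ u, c u * (2 * (t u : ℝ) ^ 2) = 2 * c u * t u + ∑ p : Pairs N,
        (4 * c u * (if p.1.1 ∈ S u ∧ p.1.2 ∈ S u then 1 else 0)) *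
          (bitVal (v p.1.1) * bitVal (v p.1.2)) := by
      intro u
      have e2 := sq_sum_pairs (fun i => bitVal (v i) * (if i ∈ S u then (1 : ℝ) else 0)) (by
        intro i
        unfold bitVal
        split_ifs <;> norm_num)
      rw [ht u] at e2
      rw [e2]
      have e3 : ∑ p : Pairs N, (4 * c u * (if p.1.1 ∈ S u ∧ p.1.2 ∈ S u then 1 else 0)) *
          (bitVal (v p.1.1) * bitVal (v p.1.2)) = 4 * c u *
          ∑ p : Pairs N, (bitVal (v p.1.1) * (if p.1.1 ∈ S u then (1 : ℝ) else 0)) *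
          (bitVal (v p.1.2) * (if p.1.2 ∈ S u then (1 : ℝ) else 0)) := by
        rw [Finset.mul_sum]
        refine Finset.sum_congr rfl fun p _ => ?_
        by_cases ha : p.1.1 ∈ S u <;> by_cases hb : p.1.2 ∈ S u <;> simp [ha, hb]
      rw [e3]
      ring
    rw [Finset.sum_congr rfl fun u _ => e1 u, Finset.sum_add_distrib]
    congr 1
    rw [Finset.sum_comm]
    refine Finset.sum_congr rfl fun p _ => ?_
    rw [← Finset.sum_mul]
  -- the linear part
  have hlin : ∑ i, ((∑ u, if i ∈ S u then 2 * c u else 0) -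
      ∑ p : Pairs N, if p.1.1 = i then Q p else 0) * bitVal (v i) =
      ∑ u, 2 * c u * t u - ∑ p : Pairs N, Q p * bitVal (v p.1.1) := by
    have e1 : ∑ i, (∑ u, if i ∈ S u then 2 * c u else 0) * bitVal (v i) =
        ∑ u, 2 * c u * t u := by
      simp only [Finset.sum_mul]
      rw [Finset.sum_comm]
      refine Finset.sum_congr rfl fun u _ => ?_
      rw [← ht u, Finset.mul_sum]
      refine Finset.sum_congr rfl fun i _ => ?_
      split_ifs <;> ring
    have e2 : ∑ i, (∑ p : Pairs N, if p.1.1 = i then Q p else 0) * bitVal (v i) =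
        ∑ p : Pairs N, Q p * bitVal (v p.1.1) := by
      simp only [Finset.sum_mul]
      rw [Finset.sum_comm]
      refine Finset.sum_congr rfl fun p _ => ?_
      rw [Finset.sum_eq_single p.1.1]
      · rw [if_pos rfl]
      · intro i _ hi
        rw [if_neg (Ne.symm hi), zero_mul]
      · intro h; exact absurd (Finset.mem_univ _) h
    rw [← e1, ← e2, ← Finset.sum_sub_distrib]
    refine Finset.sum_congr rfl fun i _ => ?_
    ring
  have hv : (if v ∈ H then (1 : ℝ) else 0) = ∑ u, c u * (-1) ^ (t u) + c0 := hH v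
  rw [hlin, Fintype.sum_sum_type]
  simp only [Sum.elim_inl, Sum.elim_inr]
  rw [Finset.sum_congr rfl fun x _ => hA x, hA2, Finset.sum_congr rfl fun p _ => hB p, hv]
  have e4 : ∑ u, c u * (-(-1 : ℝ) ^ (t u) + 2 * (t u : ℝ) ^ 2 + 1 - 4 * t u) =
      -(∑ u, c u * (-1) ^ (t u)) + ∑ u, c u * (2 * (t u : ℝ) ^ 2) + ∑ u, c u -
        2 * ∑ u, 2 * c u * t u := by
    rw [Finset.mul_sum, ← Finset.sum_neg_distrib, ← Finset.sum_add_distrib,
      ← Finset.sum_add_distrib, ← Finset.sum_sub_distrib]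
    refine Finset.sum_congr rfl fun u _ => ?_
    ring
  have e5 : ∑ p : Pairs N, Q p * (bitVal (v p.1.1) - bitVal (v p.1.1) * bitVal (v p.1.2)) =
      ∑ p : Pairs N, Q p * bitVal (v p.1.1) -
        ∑ p : Pairs N, Q p * (bitVal (v p.1.1) * bitVal (v p.1.2)) := by
    rw [← Finset.sum_sub_distrib]
    refine Finset.sum_congr rfl fun p _ => ?_
    ring
  rw [e4, e5, hquad]
  ring

end Pool.Agent.TH493.Boltz
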