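import Pool.Agent.TH493.RBM.Fourier

/-!
The binary Hamming code: covering, size and levelling.
-/

namespace Pool.Agent.TH493.Boltz

open Finset

/-- Binary vectors of length `k`. -/
abbrev Vec (k : ℕ) := Fin k → ZMod 2

/-- The sign of an element of `ZMod 2`. -/
noncomputable def sg (x : ZMod 2) : ℝ := if x = 0 then 1 else -1

theorem zmod_two_cases (x : ZMod 2) : x = 0 ∨ x = 1 := by
  revert x; decide

theorem sg_add (x y : ZMod 2) : sg (x + y) = sg x * sg y := by
  have h1 : (1 : ZMod 2) + 1 = 0 := by decide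
  rcases zmod_two_cases x with rfl | rfl <;> rcases zmod_two_cases y with rfl | rfl <;>
    simp [sg, h1]

theorem sg_zero : sg 0 = 1 := by simp [sg]

theorem sg_one : sg 1 = -1 := by simp [sg]

theorem sg_sum {ι : Type*} (s : Finset ι) (f : ι → ZMod 2) :
    sg (∑ i ∈ s, f i) = ∏ i ∈ s, sg (f i) := by
  classical
  induction s using Finset.induction_on with
  | empty => simp [sg_zero]
  | insert a s ha ih => rw [Finset.sum_insert ha, Finset.prod_insert ha, sg_add, ih]

/-- The inner product. -/
def dot {k : ℕ} (u g : Vec k) : ZMod 2 := ∑ l, u l * g l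

theorem dot_comm {k : ℕ} (u g : Vec k) : dot u g = dot g u := by
  unfold dot
  exact Finset.sum_congr rfl fun l _ => mul_comm _ _

theorem dot_zero {k : ℕ} (u : Vec k) : dot u 0 = 0 := by simp [dot]

theorem dot_sum {k : ℕ} {ι : Type*} (s : Finset ι) (u : Vec k) (f : ι → Vec k) :
    dot u (∑ i ∈ s, f i) = ∑ i ∈ s, dot u (f i) := by
  unfold dot
  rw [Finset.sum_comm]
  refine Finset.sum_congr rfl fun l _ => ?_
  rw [Finset.sum_apply, Finset.mul_sum]

theorem sum_sg_dot {k : ℕ} (g : Vec k) :
    ∑ u : Vec k, sg (dot u g) = if g = 0 then 2 ^ k else 0 := by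
  have h1 : ∀ u : Vec k, sg (dot u g) = ∏ l, sg (u l * g l) := fun u => sg_sum _ _
  have huniv : (univ : Finset (ZMod 2)) = {0, 1} := by decide
  have h2 : ∀ l, ∑ x : ZMod 2, sg (x * g l) = if g l = 0 then 2 else 0 := by
    intro l
    rw [huniv, Finset.sum_pair (by decide)]
    rcases zmod_two_cases (g l) with h | h
    · rw [h]; simp [sg_zero]; norm_num
    · rw [h]; simp [sg_zero, sg_one]
  rw [Finset.sum_congr rfl fun u _ => h1 u]
  have h3 := Finset.prod_univ_sum (fun _ : Fin k => (univ : Finset (ZMod 2)))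
    (fun l x => sg (x * g l))
  rw [Fintype.piFinset_univ] at h3
  rw [← h3, Finset.prod_congr rfl fun l _ => h2 l, Finset.prod_ite_zero]
  by_cases hg : g = 0
  · subst hg
    simp
  · rw [if_neg hg, if_neg]
    intro h
    exact hg (funext fun l => h l (Finset.mem_univ l))

section code

variable {k N : ℕ} (γ : Fin N → Vec k)

/-- The syndrome. -/
def syn (v : Fin N → Bool) : Vec k := ∑ i, if v i then γ i else 0

/-- The code: syndrome zero. -/
def hamCode : Finset (Fin N → Bool) := univ.filter (fun v => syn γ v = 0)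

theorem vec_add_self (g : Vec k) : g + g = 0 := by
  funext l
  have : ∀ x : ZMod 2, x + x = 0 := by decide
  exact this (g l)

theorem syn_flip (v : Fin N → Bool) (i : Fin N) : syn γ (flip v i) = syn γ v + γ i := by
  unfold syn
  rw [← Finset.add_sum_erase _ _ (Finset.mem_univ i), ← Finset.add_sum_erase (a := i) _
    (fun k => if v k = true then γ k else 0) (Finset.mem_univ i)]
  have h1 : ∑ j ∈ univ.erase i, (if flip v i j = true then γ j else 0) =
      ∑ j ∈ univ.erase i, (if v j = true then γ j else 0) := by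
    refine Finset.sum_congr rfl fun j hj => ?_
    rw [flip_ne _ (Finset.ne_of_mem_erase hj)]
  rw [h1, flip_self]
  cases hv : v i
  · simp only [Bool.not_false, if_true, Bool.false_eq_true, if_false, zero_add]
    abel
  · simp only [Bool.not_true, if_true, Bool.false_eq_true, if_false, zero_add]
    rw [add_right_comm, vec_add_self, zero_add]

variable (hinj : Function.Injective γ) (hran : ∀ g : Vec k, g ≠ 0 ↔ ∃ i, γ i = g)

include hran in
theorem hamCode_covers : Covers (hamCode γ) := by
  intro v hv
  have hv' : syn γ v ≠ 0 := by simpa [hamCode] using hv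
  obtain ⟨i, hi⟩ := (hran _).mp hv'
  refine ⟨i, ?_⟩
  simp only [hamCode, mem_filter, mem_univ, true_and]
  rw [syn_flip, hi, vec_add_self]

include hinj hran in
theorem card_N : N + 1 = 2 ^ k := by
  have h1 : Fintype.card {g : Vec k // g ≠ 0} = N := by
    rw [← Fintype.card_fin N]
    refine (Fintype.card_congr (Equiv.ofBijective
      (fun i => (⟨γ i, (hran _).mpr ⟨i, rfl⟩⟩ : {g : Vec k // g ≠ 0})) ⟨?_, ?_⟩)).symm
    · intro a b h
      exact hinj (congrArg Subtype.val h)
    · rintro ⟨g, hg⟩
      obtain ⟨i, hi⟩ := (hran g).mp hg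
      exact ⟨i, Subtype.ext hi⟩
  have h2 : Fintype.card {g : Vec k // g ≠ 0} = Fintype.card (Vec k) - 1 := by
    rw [Fintype.card_subtype_compl, Fintype.card_subtype_eq]
  have h3 : Fintype.card (Vec k) = 2 ^ k := by
    simp [ZMod.card]
  have h4 : 1 ≤ 2 ^ k := Nat.one_le_two_pow
  omega

include hinj hran in
theorem hamCode_card : (hamCode γ).card * 2 ^ k ≤ 2 ^ N := by
  have hN := card_N γ hinj hran
  -- the balls around the codewords are disjoint
  let φ : (Fin N → Bool) × Option (Fin N) → (Fin N → Bool) := fun x =>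
    match x.2 with
    | none => x.1
    | some i => flip x.1 i
  have hsyn : ∀ x ∈ (hamCode γ) ×ˢ (univ : Finset (Option (Fin N))), syn γ (φ x) =
      (match x.2 with
        | none => 0
        | some i => γ i) := by
    rintro ⟨v, o⟩ hx
    rw [Finset.mem_product] at hx
    have hv : syn γ v = 0 := by simpa [hamCode] using hx.1
    cases o with
    | none => exact hv
    | some i =>
      show syn γ (flip v i) = γ i
      rw [syn_flip, hv, zero_add]
  have hγ0 : ∀ i, γ i ≠ 0 := fun i => (hran _).mpr ⟨i, rfl⟩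
  have hφ : Set.InjOn φ ((hamCode γ) ×ˢ (univ : Finset (Option (Fin N))) : Finset _) := by
    rintro ⟨v, o⟩ hv ⟨w, o'⟩ hw h
    have h1 := hsyn _ hv
    have h2 := hsyn _ hw
    rw [h, h2] at h1
    cases o with
    | none =>
      cases o' with
      | none =>
        have : v = w := h
        rw [this]
      | some j => exact absurd h1 (hγ0 j)
    | some i =>
      cases o' with
      | none => exact absurd h1.symm (hγ0 i)
      | some j =>
        have hij : j = i := hinj h1
        subst hij
        have h3 : flip v j = flip w j := h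
        have h4 := congrArg (fun x => flip x j) h3
        simp only [flip_flip] at h4
        rw [h4]
  have h1 := Finset.card_le_card_of_injOn φ (t := univ) (fun x _ => Finset.mem_univ _) hφ
  rw [Finset.card_product, Finset.card_univ, Fintype.card_option, Fintype.card_fin, hN,
    Finset.card_univ] at h1
  simpa using h1

theorem sg_dot_syn (u : Vec k) (v : Fin N → Bool) :
    sg (dot u (syn γ v)) = (-1) ^
      ((univ.filter (fun i => dot u (γ i) ≠ 0)).filter (fun i => v i = true)).card := by
  unfold syn
  rw [dot_sum, sg_sum]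
  have h1 : ∀ i, sg (dot u (if v i = true then γ i else 0)) =
      if (dot u (γ i) ≠ 0 ∧ v i = true) then -1 else 1 := by
    intro i
    by_cases hv : v i = true
    · rw [if_pos hv]
      rcases zmod_two_cases (dot u (γ i)) with h | h
      · rw [h]; simp [sg_zero]
      · rw [h]; simp [sg_one, hv]
    · rw [if_neg hv, dot_zero, sg_zero]
      simp [hv]
  rw [Finset.prod_congr rfl fun i _ => h1 i, Finset.prod_ite, Finset.prod_const,
    Finset.prod_const_one, mul_one, Finset.filter_filter]

include hinj hran in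
theorem card_support {u : Vec k} (hu : u ≠ 0) :
    2 * (univ.filter (fun i : Fin N => dot u (γ i) ≠ 0)).card = 2 ^ k := by
  classical
  have h1 : (univ.filter (fun i : Fin N => dot u (γ i) ≠ 0)).card =
      (univ.filter (fun g : Vec k => dot u g ≠ 0)).card := by
    refine Finset.card_bij (fun i _ => γ i) ?_ ?_ ?_
    · intro i hi; simpa using hi
    · intro a _ b _ h; exact hinj h
    · intro g hg
      have hg' : dot u g ≠ 0 := by simpa using hg
      have hg0 : g ≠ 0 := by
        intro h; rw [h, dot_zero] at hg'; exact hg' rfl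
      obtain ⟨i, rfl⟩ := (hran g).mp hg0
      exact ⟨i, by simpa using hg', rfl⟩
  have h2 := sum_sg_dot u
  rw [if_neg hu] at h2
  have h3 : ∑ g : Vec k, sg (dot g u) = ((univ.filter (fun g : Vec k => dot u g = 0)).card : ℝ) -
      ((univ.filter (fun g : Vec k => dot u g ≠ 0)).card : ℝ) := by
    have h4 : ∀ g : Vec k, sg (dot g u) = if dot u g = 0 then 1 else -1 := by
      intro g; rw [dot_comm]; rfl
    rw [Finset.sum_congr rfl fun g _ => h4 g, Finset.sum_ite]
    simp
    ring
  have h5 : (univ.filter (fun g : Vec k => dot u g = 0)).card +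
      (univ.filter (fun g : Vec k => dot u g ≠ 0)).card = 2 ^ k := by
    have := Finset.card_filter_add_card_filter_not (s := (univ : Finset (Vec k)))
      (fun g => dot u g = 0)
    rw [Finset.card_univ] at this
    simpa [ZMod.card] using this
  rw [h3] at h2
  have h6 : (univ.filter (fun g : Vec k => dot u g = 0)).card =
      (univ.filter (fun g : Vec k => dot u g ≠ 0)).card := by
    have : ((univ.filter (fun g : Vec k => dot u g = 0)).card : ℝ) =
      ((univ.filter (fun g : Vec k => dot u g ≠ 0)).card : ℝ) := by linarith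
    exact_mod_cast this
  rw [h1]
  omega

include hinj hran in
/-- The Hamming code can be levelled with quadratically many units. -/
theorem hamCode_levelled : ∃ (κ : Type) (_ : Fintype κ),
    4 * Fintype.card κ ≤ N * (3 * N - 5) ∧ Levelled κ (hamCode γ) := by
  classical
  refine ⟨(Σ u : Vec k, Fin (((univ.filter (fun i => dot u (γ i) ≠ 0)).card - 1) / 2)) ⊕
    Pairs N, inferInstance, ?_, ?_⟩
  · rw [Fintype.card_sum, Fintype.card_sigma]
    simp only [Fintype.card_fin]
    have hN := card_N γ hinj hran
    have hp := card_pairs N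
    have h0 : ∀ u : Vec k, ((univ.filter (fun i => dot u (γ i) ≠ 0)).card - 1) / 2 =
        if u = 0 then 0 else (2 ^ k / 2 - 1) / 2 := by
      intro u
      by_cases hu : u = 0
      · subst hu
        rw [if_pos rfl]
        have : univ.filter (fun i : Fin N => dot (0 : Vec k) (γ i) ≠ 0) = ∅ := by
          ext i; simp [dot]
        rw [this]; simp
      · rw [if_neg hu]
        have := card_support γ hinj hran hu
        congr 2
        omega
    rw [Finset.sum_congr rfl fun u _ => h0 u, Finset.sum_ite, Finset.sum_const_zero, zero_add,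
      Finset.sum_const, smul_eq_mul]
    have hcnt : (univ.filter (fun u : Vec k => ¬ u = 0)).card = N := by
      rw [Finset.filter_not, Finset.card_sdiff_of_subset (Finset.filter_subset _ _),
        Finset.filter_eq', if_pos (Finset.mem_univ _), Finset.card_singleton, Finset.card_univ]
      simp [ZMod.card]
      omega
    rw [hcnt]
    rcases Nat.lt_or_ge k 2 with hk | hk
    · -- k = 0 or k = 1
      have : k = 0 ∨ k = 1 := by omega
      rcases this with rfl | rfl
      · have : N = 0 := by simpa using hN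
        subst this
        simp at hp ⊢
      · have : N = 1 := by omega
        subst this
        simp at hp ⊢
        exact hp
    · obtain ⟨j, rfl⟩ : ∃ j, k = j + 2 := ⟨k - 2, by omega⟩
      have e1 : (2 : ℕ) ^ (j + 2) = 4 * 2 ^ j := by rw [pow_add]; ring
      have e2 : 1 ≤ 2 ^ j := Nat.one_le_two_pow
      have e3 : ((2 : ℕ) ^ (j + 2) / 2 - 1) / 2 = 2 ^ j - 1 := by omega
      rw [e3]
      obtain ⟨x, hx⟩ : ∃ x, 2 ^ j = x + 1 := ⟨2 ^ j - 1, by omega⟩
      have e4 : N = 4 * x + 3 := by omega
      rw [hx]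
      subst e4
      have e5 : 3 * (4 * x + 3) - 5 = 12 * x + 4 := by omega
      have e6 : 4 * x + 3 - 1 = 4 * x + 2 := by omega
      rw [e5]
      rw [e6] at hp
      have e7 : x + 1 - 1 = x := by omega
      rw [e7]
      nlinarith [hp]
  · refine levelled_parity (fun u => univ.filter (fun i => dot u (γ i) ≠ 0))
      (fun _ => (1 / 2 : ℝ) ^ k) (fun _ => by positivity) 0 fun v => ?_
    rw [← Finset.mul_sum, add_zero]
    rw [← Finset.sum_congr rfl fun u _ => sg_dot_syn γ u v, sum_sg_dot]
    simp only [hamCode, mem_filter, mem_univ, true_and]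
    by_cases h : syn γ v = 0
    · rw [if_pos h, if_pos h, ← mul_pow]; norm_num
    · rw [if_neg h, if_neg h, mul_zero]

end code

theorem exists_gamma (k : ℕ) : ∃ γ : Fin (2 ^ k - 1) → Vec k, Function.Injective γ ∧
    ∀ g : Vec k, g ≠ 0 ↔ ∃ i, γ i = g := by
  classical
  have h2 : Fintype.card {g : Vec k // g ≠ 0} = 2 ^ k - 1 := by
    rw [Fintype.card_subtype_compl, Fintype.card_subtype_eq]
    simp [ZMod.card]
  let e : Fin (2 ^ k - 1) ≃ {g : Vec k // g ≠ 0} := (Fintype.equivFinOfCardEq h2).symm
  refine ⟨fun i => (e i).1, fun a b h => e.injective (Subtype.ext h), fun g => ⟨fun hg => ?_, ?_⟩⟩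
  · exact ⟨e.symm ⟨g, hg⟩, by simp⟩
  · rintro ⟨i, rfl⟩; exact (e i).2

/-- **Upper bound from Hamming codes.** -/
theorem universal_hamming {n k m : ℕ} (hk : 2 ^ k ≤ n + 1)
    (hm : 2 ^ (n - k) + 3 * n ^ 2 / 4 ≤ m) : IsUniversal n m := by
  obtain ⟨γ, hinj, hran⟩ := exists_gamma k
  obtain ⟨κ, hκ, hcard, hlev⟩ := hamCode_levelled γ hinj hran
  have h1 := hamCode_card γ hinj hran
  refine universal_of_code (hamCode_covers γ hran) hlev (n := n) ?_ ?_
  · rw [Fintype.card_fin]; omega
  · rw [Fintype.card_fin]
    have hpos : 1 ≤ 2 ^ k := Nat.one_le_two_pow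
    have hkn : k ≤ n := by
      have : k < 2 ^ k := Nat.lt_two_pow_self
      omega
    have h2 : (hamCode γ).card * 2 ^ (n - (2 ^ k - 1)) ≤ 2 ^ (n - k) := by
      have e1 : (hamCode γ).card * 2 ^ (n - (2 ^ k - 1)) * 2 ^ k ≤ 2 ^ (n - k) * 2 ^ k := by
        calc (hamCode γ).card * 2 ^ (n - (2 ^ k - 1)) * 2 ^ k
            = (hamCode γ).card * 2 ^ k * 2 ^ (n - (2 ^ k - 1)) := by ring
          _ ≤ 2 ^ (2 ^ k - 1) * 2 ^ (n - (2 ^ k - 1)) := Nat.mul_le_mul_right _ h1
          _ = 2 ^ n := by rw [← pow_add]; congr 1; omega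
          _ = 2 ^ (n - k) * 2 ^ k := by rw [← pow_add]; congr 1; omega
      exact Nat.le_of_mul_le_mul_right e1 (by positivity)
    have h3 : Fintype.card κ ≤ 3 * n ^ 2 / 4 := by
      rw [Nat.le_div_iff_mul_le (by norm_num)]
      have e1 : 2 ^ k - 1 ≤ n := by omega
      have e2 : 3 * (2 ^ k - 1) - 5 ≤ 3 * n := by omega
      calc Fintype.card κ * 4 = 4 * Fintype.card κ := by ring
        _ ≤ (2 ^ k - 1) * (3 * (2 ^ k - 1) - 5) := hcard
        _ ≤ n * (3 * n) := Nat.mul_le_mul e1 e2
        _ = 3 * n ^ 2 := by ring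
    omega

end Pool.Agent.TH493.Boltz
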