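import Pool.Agent.TH493.RBM.Cover

/-!
Transfer of a covering code and its levelling to higher dimension, and the trivial levelling.
-/

namespace Pool.Agent.TH493.Boltz

open Finset Filter Topology

/-- The cylinder over `H0`. -/
def cyl {ι : Type*} [Fintype ι] [DecidableEq ι] {n : ℕ} (e : ι → Fin n) (H0 : Finset (ι → Bool)) :
    Finset (Fin n → Bool) :=
  univ.filter (fun v => v ∘ e ∈ H0)

theorem mem_cyl {ι : Type*} [Fintype ι] [DecidableEq ι] {n : ℕ} (e : ι → Fin n) (H0 : Finset (ι → Bool))
    (v : Fin n → Bool) : v ∈ cyl e H0 ↔ v ∘ e ∈ H0 := by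
  simp [cyl]

theorem covers_cyl {ι : Type*} [Fintype ι] [DecidableEq ι] {n : ℕ} {e : ι → Fin n}
    (he : Function.Injective e) {H0 : Finset (ι → Bool)} (h : Covers H0) :
    Covers (cyl e H0) := by
  intro v hv
  rw [mem_cyl] at hv
  obtain ⟨i, hi⟩ := h _ hv
  refine ⟨e i, ?_⟩
  rw [mem_cyl]
  convert hi using 1
  funext k
  by_cases hk : k = i
  · subst hk
    simp [flip]
  · have : e k ≠ e i := fun h => hk (he h)
    simp [flip, hk, this]

theorem levelled_cyl {ι κ : Type*} [Fintype ι] [DecidableEq ι] [Fintype κ] {n : ℕ}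
    {e : ι → Fin n} {H0 : Finset (ι → Bool)} (h : Levelled κ H0) :
    Levelled κ (cyl e H0) := by
  obtain ⟨g, g0, b, c, hg⟩ := h
  refine ⟨fun j l => ∑ i, if e i = l then g j i else 0, g0,
    fun l => ∑ i, if e i = l then b i else 0, c, fun v => ?_⟩
  have h1 : ∀ (f : ι → ℝ), ∑ l, bitVal (v l) * (∑ i, if e i = l then f i else 0) =
      ∑ i, bitVal (v (e i)) * f i := by
    intro f
    simp only [Finset.mul_sum]
    rw [Finset.sum_comm]
    refine Finset.sum_congr rfl fun i _ => ?_
    rw [Finset.sum_eq_single (e i)]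
    · simp
    · intro l _ hl
      rw [if_neg (Ne.symm hl), mul_zero]
    · intro h; exact absurd (Finset.mem_univ _) h
  have h2 : ∑ l, (∑ i, if e i = l then b i else 0) * bitVal (v l) =
      ∑ i, b i * bitVal (v (e i)) := by
    rw [Finset.sum_congr rfl fun l _ => mul_comm _ _, h1 b]
    exact Finset.sum_congr rfl fun i _ => mul_comm _ _
  rw [h2]
  simp only [h1, mem_cyl]
  exact hg (v ∘ e)

theorem card_cyl {ι : Type*} [Fintype ι] [DecidableEq ι] {n s : ℕ} (E : ι ⊕ Fin s ≃ Fin n)
    (H0 : Finset (ι → Bool)) :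
    (cyl (fun i => E (Sum.inl i)) H0).card = H0.card * 2 ^ s := by
  have h1 : (H0 ×ˢ (univ : Finset (Fin s → Bool))).card = H0.card * 2 ^ s := by
    rw [Finset.card_product, Finset.card_univ]
    simp
  rw [← h1]
  refine Finset.card_bij (fun v _ => (v ∘ (fun i => E (Sum.inl i)), v ∘ (fun i => E (Sum.inr i))))
    ?_ ?_ ?_
  · intro v hv
    rw [mem_cyl] at hv
    rw [Finset.mem_product]
    exact ⟨hv, Finset.mem_univ _⟩
  · intro v _ w _ h
    rw [Prod.mk.injEq] at h
    funext l
    obtain ⟨x, rfl⟩ := E.surjective l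
    rcases x with i | i
    · exact congrFun h.1 i
    · exact congrFun h.2 i
  · rintro ⟨a, r⟩ hab
    rw [Finset.mem_product] at hab
    refine ⟨fun l => Sum.elim a r (E.symm l), ?_, ?_⟩
    · rw [mem_cyl]
      convert hab.1 using 1
      funext i
      simp
    · ext i
      · simp
      · simp

/-- A covering code with a levelling gives universal machines in all higher dimensions. -/
theorem universal_of_code {ι κ : Type*} [Fintype ι] [DecidableEq ι] [Fintype κ]
    {H0 : Finset (ι → Bool)} (hc : Covers H0) (hl : Levelled κ H0) {n m : ℕ}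
    (hn : Fintype.card ι ≤ n)
    (hm : H0.card * 2 ^ (n - Fintype.card ι) + Fintype.card κ ≤ m) : IsUniversal n m := by
  have hcard : Fintype.card (ι ⊕ Fin (n - Fintype.card ι)) = Fintype.card (Fin n) := by
    rw [Fintype.card_sum, Fintype.card_fin, Fintype.card_fin]
    omega
  let E : ι ⊕ Fin (n - Fintype.card ι) ≃ Fin n := Fintype.equivOfCardEq hcard
  have he : Function.Injective (fun i => E (Sum.inl i)) := fun a b h =>
    Sum.inl_injective (E.injective h)
  refine universal_of_covers (H := cyl (fun i => E (Sum.inl i)) H0) (κ := κ)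
    (covers_cyl he hc) (levelled_cyl hl) ?_
  rw [card_cyl]
  exact hm

/-- The trivial levelling, by one unit per vertex of the small cube. -/
theorem levelled_trivial {ι : Type*} [Fintype ι] [DecidableEq ι] (H0 : Finset (ι → Bool)) :
    Levelled (ι → Bool) H0 := by
  refine ⟨fun w i => if w ∈ H0 then 0 else ((1 - 2 * bitVal (w i)) * ((0 : ℝ) - 1)),
    fun w => if w ∈ H0 then 0 else (1 + ∑ i, bitVal (w i) * ((0 : ℝ) - 1)), fun _ => 0, -1,
    fun v => ?_⟩
  have h1 : ∀ w : ι → Bool, max 0 ((if w ∈ H0 then 0 else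
      (1 + ∑ i, bitVal (w i) * ((0 : ℝ) - 1))) +
      ∑ i, bitVal (v i) * (if w ∈ H0 then 0 else ((1 - 2 * bitVal (w i)) * ((0 : ℝ) - 1)))) =
      if w = v then (if v ∈ H0 then 0 else 1) else 0 := by
    intro w
    by_cases hw : w ∈ H0
    · simp only [if_pos hw, mul_zero, Finset.sum_const_zero, add_zero, max_self]
      by_cases hwv : w = v
      · subst hwv; simp [hw]
      · simp [hwv]
    · simp only [if_neg hw]
      rw [star_arg w v 1 (fun _ => 0)]
      by_cases hwv : w = v
      · subst hwv
        rw [diffSet_self]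
        simp [hw]
      · rw [if_neg hwv]
        have hc : 1 ≤ (diffSet w v).card := by
          by_contra hlt
          exact hwv (diffSet_eq_empty (by omega)).symm
        rw [max_eq_left]
        rw [Finset.sum_const, nsmul_eq_mul]
        have : (1 : ℝ) ≤ ((diffSet w v).card : ℝ) := by exact_mod_cast hc
        linarith
  simp only [h1, zero_mul, Finset.sum_const_zero, zero_add, Finset.sum_ite_eq', Finset.mem_univ,
    if_true]
  by_cases hv : v ∈ H0 <;> simp [hv]

end Pool.Agent.TH493.Boltz
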